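import Pool.Agent.Lib.H40X.XF6T

/-! # H40X: the axiom clauses and the last step of the check `f_x44_k` -/

set_option autoImplicit false
set_option linter.unusedVariables false
set_option maxRecDepth 100000

namespace H30P

open H53P

theorem e_x44_ax : ckaxs
    (.br 249 (.br 124 (.br 62 (.br 31 (.br 15 (.br 7 (.br 3 (.br 1 (.lf 12816) (.br 2 (.lf 12576) (.lf 8496)))
    (.br 5 (.br 4 (.lf 16912) (.lf 16672)) (.br 6 (.lf 8512) (.lf 17168)))) (.br 11 (.br 9 (.br 8 (.lf 16688)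
    (.lf 12608)) (.br 10 (.lf 17184) (.lf 16944))) (.br 13 (.br 12 (.lf 12864) (.lf 17185)) (.br 14 (.lf
    16945) (.lf 12865))))) (.br 23 (.br 19 (.br 17 (.br 16 (.lf 21008) (.lf 20768)) (.br 18 (.lf 8528) (.lf
    21264))) (.br 21 (.br 20 (.lf 20784) (.lf 12624)) (.br 22 (.lf 21280) (.lf 21040)))) (.br 27 (.br 25 (.br
    24 (.lf 12880) (.lf 21281)) (.br 26 (.lf 21041) (.lf 12881))) (.br 29 (.br 28 (.lf 21520) (.lf 20800))
    (.br 30 (.lf 16720) (.lf 21536)))))) (.br 46 (.br 38 (.br 34 (.br 32 (.lf 21056) (.br 33 (.lf 16976) (.lf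
    21537))) (.br 36 (.br 35 (.lf 21057) (.lf 16977)) (.br 37 (.lf 21552) (.lf 21312)))) (.br 42 (.br 40 (.br
    39 (.lf 17232) (.lf 21553)) (.br 41 (.lf 21313) (.lf 17233))) (.br 44 (.br 43 (.lf 21554) (.lf 21314))
    (.br 45 (.lf 17234) (.lf 25104))))) (.br 54 (.br 50 (.br 48 (.br 47 (.lf 24864) (.lf 8544)) (.br 49 (.lf
    25360) (.lf 24880))) (.br 52 (.br 51 (.lf 12640) (.lf 25376)) (.br 53 (.lf 25136) (.lf 12896)))) (.br 58
    (.br 56 (.br 55 (.lf 25377) (.lf 25137)) (.br 57 (.lf 12897) (.lf 25616))) (.br 60 (.br 59 (.lf 24896)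
    (.lf 16736)) (.br 61 (.lf 25632) (.lf 25152))))))) (.br 93 (.br 77 (.br 69 (.br 65 (.br 63 (.lf 16992)
    (.br 64 (.lf 25633) (.lf 25153))) (.br 67 (.br 66 (.lf 16993) (.lf 25648)) (.br 68 (.lf 25408) (.lf
    17248)))) (.br 73 (.br 71 (.br 70 (.lf 25649) (.lf 25409)) (.br 72 (.lf 17249) (.lf 25650))) (.br 75 (.br
    74 (.lf 25410) (.lf 17250)) (.br 76 (.lf 25872) (.lf 24912))))) (.br 85 (.br 81 (.br 79 (.br 78 (.lf
    20832) (.lf 25888)) (.br 80 (.lf 25168) (.lf 21088))) (.br 83 (.br 82 (.lf 25889) (.lf 25169)) (.br 84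
    (.lf 21089) (.lf 25904)))) (.br 89 (.br 87 (.br 86 (.lf 25424) (.lf 21344)) (.br 88 (.lf 25905) (.lf
    25425))) (.br 91 (.br 90 (.lf 21345) (.lf 25906)) (.br 92 (.lf 25426) (.lf 21346)))))) (.br 108 (.br 100
    (.br 96 (.br 94 (.lf 25920) (.br 95 (.lf 25680) (.lf 21600))) (.br 98 (.br 97 (.lf 25921) (.lf 25681))
    (.br 99 (.lf 21601) (.lf 25922)))) (.br 104 (.br 102 (.br 101 (.lf 25682) (.lf 21602)) (.br 103 (.lf
    25923) (.lf 25683))) (.br 106 (.br 105 (.lf 21603) (.lf 29200)) (.br 107 (.lf 28960) (.lf 8560))))) (.br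
    116 (.br 112 (.br 110 (.br 109 (.lf 29456) (.lf 28976)) (.br 111 (.lf 12656) (.lf 29472))) (.br 114 (.br
    113 (.lf 29232) (.lf 12912)) (.br 115 (.lf 29473) (.lf 29233)))) (.br 120 (.br 118 (.br 117 (.lf 12913)
    (.lf 29712)) (.br 119 (.lf 28992) (.lf 16752))) (.br 122 (.br 121 (.lf 29728) (.lf 29248)) (.br 123 (.lf
    17008) (.lf 29729)))))))) (.br 186 (.br 155 (.br 139 (.br 131 (.br 127 (.br 125 (.lf 29249) (.br 126 (.lf
    17009) (.lf 29744))) (.br 129 (.br 128 (.lf 29504) (.lf 17264)) (.br 130 (.lf 29745) (.lf 29505)))) (.br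
    135 (.br 133 (.br 132 (.lf 17265) (.lf 29746)) (.br 134 (.lf 29506) (.lf 17266))) (.br 137 (.br 136 (.lf
    29968) (.lf 29008)) (.br 138 (.lf 20848) (.lf 29984))))) (.br 147 (.br 143 (.br 141 (.br 140 (.lf 29264)
    (.lf 21104)) (.br 142 (.lf 29985) (.lf 29265))) (.br 145 (.br 144 (.lf 21105) (.lf 30000)) (.br 146 (.lf
    29520) (.lf 21360)))) (.br 151 (.br 149 (.br 148 (.lf 30001) (.lf 29521)) (.br 150 (.lf 21361) (.lf
    30002))) (.br 153 (.br 152 (.lf 29522) (.lf 21362)) (.br 154 (.lf 30016) (.lf 29776)))))) (.br 170 (.br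
    162 (.br 158 (.br 156 (.lf 21616) (.br 157 (.lf 30017) (.lf 29777))) (.br 160 (.br 159 (.lf 21617) (.lf
    30018)) (.br 161 (.lf 29778) (.lf 21618)))) (.br 166 (.br 164 (.br 163 (.lf 30019) (.lf 29779)) (.br 165
    (.lf 21619) (.lf 30224))) (.br 168 (.br 167 (.lf 29024) (.lf 24944)) (.br 169 (.lf 30240) (.lf 29280)))))
    (.br 178 (.br 174 (.br 172 (.br 171 (.lf 25200) (.lf 30241)) (.br 173 (.lf 29281) (.lf 25201))) (.br 176
    (.br 175 (.lf 30256) (.lf 29536)) (.br 177 (.lf 25456) (.lf 30257)))) (.br 182 (.br 180 (.br 179 (.lf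
    29537) (.lf 25457)) (.br 181 (.lf 30258) (.lf 29538))) (.br 184 (.br 183 (.lf 25458) (.lf 30272)) (.br 185
    (.lf 29792) (.lf 25712))))))) (.br 217 (.br 201 (.br 193 (.br 189 (.br 187 (.lf 30273) (.br 188 (.lf
    29793) (.lf 25713))) (.br 191 (.br 190 (.lf 30274) (.lf 29794)) (.br 192 (.lf 25714) (.lf 30275)))) (.br
    197 (.br 195 (.br 194 (.lf 29795) (.lf 25715)) (.br 196 (.lf 30288) (.lf 30048))) (.br 199 (.br 198 (.lf
    25968) (.lf 30289)) (.br 200 (.lf 30049) (.lf 25969))))) (.br 209 (.br 205 (.br 203 (.br 202 (.lf 30290)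
    (.lf 30050)) (.br 204 (.lf 25970) (.lf 30291))) (.br 207 (.br 206 (.lf 30051) (.lf 25971)) (.br 208 (.lf
    30292) (.lf 30052)))) (.br 213 (.br 211 (.br 210 (.lf 25972) (.lf 33296)) (.br 212 (.lf 33056) (.lf
    8576))) (.br 215 (.br 214 (.lf 33552) (.lf 33072)) (.br 216 (.lf 12672) (.lf 33568)))))) (.br 233 (.br 225
    (.br 221 (.br 219 (.br 218 (.lf 33328) (.lf 12928)) (.br 220 (.lf 33569) (.lf 33329))) (.br 223 (.br 222
    (.lf 12929) (.lf 33808)) (.br 224 (.lf 33088) (.lf 16768)))) (.br 229 (.br 227 (.br 226 (.lf 33824) (.lf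
    33344)) (.br 228 (.lf 17024) (.lf 33825))) (.br 231 (.br 230 (.lf 33345) (.lf 17025)) (.br 232 (.lf 33840)
    (.lf 33600))))) (.br 241 (.br 237 (.br 235 (.br 234 (.lf 17280) (.lf 33841)) (.br 236 (.lf 33601) (.lf
    17281))) (.br 239 (.br 238 (.lf 33842) (.lf 33602)) (.br 240 (.lf 17282) (.lf 34064)))) (.br 245 (.br 243
    (.br 242 (.lf 33104) (.lf 20864)) (.br 244 (.lf 34080) (.lf 33360))) (.br 247 (.br 246 (.lf 21120) (.lf
    34081)) (.br 248 (.lf 33361) (.lf 21121))))))))) (.br 374 (.br 311 (.br 280 (.br 264 (.br 256 (.br 252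
    (.br 250 (.lf 34096) (.br 251 (.lf 33616) (.lf 21376))) (.br 254 (.br 253 (.lf 34097) (.lf 33617)) (.br
    255 (.lf 21377) (.lf 34098)))) (.br 260 (.br 258 (.br 257 (.lf 33618) (.lf 21378)) (.br 259 (.lf 34112)
    (.lf 33872))) (.br 262 (.br 261 (.lf 21632) (.lf 34113)) (.br 263 (.lf 33873) (.lf 21633))))) (.br 272
    (.br 268 (.br 266 (.br 265 (.lf 34114) (.lf 33874)) (.br 267 (.lf 21634) (.lf 34115))) (.br 270 (.br 269
    (.lf 33875) (.lf 21635)) (.br 271 (.lf 34320) (.lf 33120)))) (.br 276 (.br 274 (.br 273 (.lf 24960) (.lf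
    34336)) (.br 275 (.lf 33376) (.lf 25216))) (.br 278 (.br 277 (.lf 34337) (.lf 33377)) (.br 279 (.lf 25217)
    (.lf 34352)))))) (.br 295 (.br 287 (.br 283 (.br 281 (.lf 33632) (.br 282 (.lf 25472) (.lf 34353))) (.br
    285 (.br 284 (.lf 33633) (.lf 25473)) (.br 286 (.lf 34354) (.lf 33634)))) (.br 291 (.br 289 (.br 288 (.lf
    25474) (.lf 34368)) (.br 290 (.lf 33888) (.lf 25728))) (.br 293 (.br 292 (.lf 34369) (.lf 33889)) (.br 294
    (.lf 25729) (.lf 34370))))) (.br 303 (.br 299 (.br 297 (.br 296 (.lf 33890) (.lf 25730)) (.br 298 (.lf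
    34371) (.lf 33891))) (.br 301 (.br 300 (.lf 25731) (.lf 34384)) (.br 302 (.lf 34144) (.lf 25984)))) (.br
    307 (.br 305 (.br 304 (.lf 34385) (.lf 34145)) (.br 306 (.lf 25985) (.lf 34386))) (.br 309 (.br 308 (.lf
    34146) (.lf 25986)) (.br 310 (.lf 34387) (.lf 34147))))))) (.br 342 (.br 326 (.br 318 (.br 314 (.br 312
    (.lf 25987) (.br 313 (.lf 34388) (.lf 34148))) (.br 316 (.br 315 (.lf 25988) (.lf 34576)) (.br 317 (.lf
    33136) (.lf 29056)))) (.br 322 (.br 320 (.br 319 (.lf 34592) (.lf 33392)) (.br 321 (.lf 29312) (.lf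
    34593))) (.br 324 (.br 323 (.lf 33393) (.lf 29313)) (.br 325 (.lf 34608) (.lf 33648))))) (.br 334 (.br 330
    (.br 328 (.br 327 (.lf 29568) (.lf 34609)) (.br 329 (.lf 33649) (.lf 29569))) (.br 332 (.br 331 (.lf
    34610) (.lf 33650)) (.br 333 (.lf 29570) (.lf 34624)))) (.br 338 (.br 336 (.br 335 (.lf 33904) (.lf
    29824)) (.br 337 (.lf 34625) (.lf 33905))) (.br 340 (.br 339 (.lf 29825) (.lf 34626)) (.br 341 (.lf 33906)
    (.lf 29826)))))) (.br 358 (.br 350 (.br 346 (.br 344 (.br 343 (.lf 34627) (.lf 33907)) (.br 345 (.lf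
    29827) (.lf 34640))) (.br 348 (.br 347 (.lf 34160) (.lf 30080)) (.br 349 (.lf 34641) (.lf 34161)))) (.br
    354 (.br 352 (.br 351 (.lf 30081) (.lf 34642)) (.br 353 (.lf 34162) (.lf 30082))) (.br 356 (.br 355 (.lf
    34643) (.lf 34163)) (.br 357 (.lf 30083) (.lf 34644))))) (.br 366 (.br 362 (.br 360 (.br 359 (.lf 34164)
    (.lf 30084)) (.br 361 (.lf 34656) (.lf 34416))) (.br 364 (.br 363 (.lf 30336) (.lf 34657)) (.br 365 (.lf
    34417) (.lf 30337)))) (.br 370 (.br 368 (.br 367 (.lf 34658) (.lf 34418)) (.br 369 (.lf 30338) (.lf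
    34659))) (.br 372 (.br 371 (.lf 34419) (.lf 30339)) (.br 373 (.lf 34660) (.lf 34420)))))))) (.br 436 (.br
    405 (.br 389 (.br 381 (.br 377 (.br 375 (.lf 30340) (.br 376 (.lf 34661) (.lf 34421))) (.br 379 (.br 378
    (.lf 30341) (.lf 13665)) (.br 380 (.lf 865) (.lf 20577)))) (.br 385 (.br 383 (.br 382 (.lf 13569) (.lf
    25345)) (.br 384 (.lf 22017) (.lf 309))) (.br 387 (.br 386 (.lf 4149) (.lf 8501)) (.br 388 (.lf 565) (.lf
    4133))))) (.br 397 (.br 393 (.br 391 (.br 390 (.lf 12581) (.lf 805)) (.br 392 (.lf 13905) (.lf 849))) (.br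
    395 (.br 394 (.lf 24657) (.lf 13825)) (.br 396 (.lf 21249) (.lf 25857)))) (.br 401 (.br 399 (.br 398 (.lf
    310) (.lf 4150)) (.br 400 (.lf 8502) (.lf 566))) (.br 403 (.br 402 (.lf 4134) (.lf 12582)) (.br 404 (.lf
    806) (.lf 9568)))))) (.br 420 (.br 412 (.br 408 (.br 406 (.lf 4704) (.br 407 (.lf 9488) (.lf 22032))) (.br
    410 (.br 409 (.lf 293) (.lf 9808)) (.br 411 (.lf 4688) (.lf 9744)))) (.br 416 (.br 414 (.br 413 (.lf 294)
    (.lf 4148)) (.br 415 (.lf 8500) (.lf 564))) (.br 418 (.br 417 (.lf 4132) (.lf 12580)) (.br 419 (.lf 804)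
    (.lf 24628))))) (.br 428 (.br 424 (.br 422 (.br 421 (.lf 22068) (.lf 1332)) (.br 423 (.lf 24660) (.lf
    13908))) (.br 426 (.br 425 (.lf 852) (.lf 24868)) (.br 427 (.lf 22052) (.lf 5412)))) (.br 432 (.br 430
    (.br 429 (.lf 24916) (.lf 9812)) (.br 431 (.lf 4692) (.lf 24626))) (.br 434 (.br 433 (.lf 22066) (.lf
    1330)) (.br 435 (.lf 24658) (.lf 13906))))))) (.br 467 (.br 451 (.br 443 (.br 439 (.br 437 (.lf 850) (.br
    438 (.lf 24612) (.lf 34578))) (.br 441 (.br 440 (.lf 34563) (.lf 6019)) (.br 442 (.lf 8579) (.lf 29315))))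
    (.br 447 (.br 445 (.br 444 (.lf 5923) (.lf 33059)) (.br 446 (.lf 30755) (.lf 8983))) (.br 449 (.br 448
    (.lf 12823) (.lf 791)) (.br 450 (.lf 8215) (.lf 12807))))) (.br 459 (.br 455 (.br 453 (.br 452 (.lf 4871)
    (.lf 8455)) (.br 454 (.lf 6259) (.lf 8563))) (.br 457 (.br 456 (.lf 33395) (.lf 6179)) (.br 458 (.lf
    28963) (.lf 34595)))) (.br 463 (.br 461 (.br 460 (.lf 8984) (.lf 12824)) (.br 462 (.lf 792) (.lf 8216)))
    (.br 465 (.br 464 (.lf 12808) (.lf 4872)) (.br 466 (.lf 8456) (.lf 1922)))))) (.br 483 (.br 475 (.br 471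
    (.br 469 (.br 468 (.lf 12418) (.lf 1842)) (.br 470 (.lf 32818) (.lf 30770))) (.br 473 (.br 472 (.lf 8967)
    (.lf 2162)) (.br 474 (.lf 12402) (.lf 2098)))) (.br 479 (.br 477 (.br 476 (.lf 28722) (.lf 8968)) (.br 478
    (.lf 12820) (.lf 788))) (.br 481 (.br 480 (.lf 8212) (.lf 12804)) (.br 482 (.lf 4868) (.lf 8452))))) (.br
    491 (.br 487 (.br 485 (.br 484 (.lf 33300) (.lf 30740)) (.br 486 (.lf 10004) (.lf 33396))) (.br 489 (.br
    488 (.lf 6260) (.lf 8564)) (.br 490 (.lf 33540) (.lf 30724)))) (.br 495 (.br 493 (.br 492 (.lf 14084) (.lf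
    33652)) (.br 494 (.lf 2164) (.lf 12404))) (.br 497 (.br 496 (.lf 30736) (.lf 10000)) (.br 498 (.lf 6256)
    (.lf 33284)))))))))) 499 9
    [(0, 756, 758), (0, 998, 760), (0, 762, 764), (0, 1002, 766), (1, 1000, 1004), (0, 1006, 768), (0, 770, 772), (0, 1010, 774), (0, 776, 778), (0, 1014, 780), (1, 1012, 1016), (0, 1008, 1018), (0, 782, 784), (0, 1022, 786), (0, 788, 790), (0, 1026, 792), (1, 1024, 1028), (0, 1030, 794), (0, 796, 798), (0, 1034, 800), (0, 802, 804), (0, 1038, 806), (1, 1036, 1040), (0, 1032, 1042), (0, 808, 810), (0, 1046, 154), (0, 812, 90), (0, 1050, 814), (1, 1048, 1052), (0, 1054, 816), (0, 1056, 1018), (0, 818, 820), (0, 1060, 152), (0, 822, 30), (0, 1064, 150), (1, 1062, 1066), (0, 1068, 824), (0, 1070, 1042), (0, 826, 828), (0, 1074, 830), (0, 832, 834), (0, 1078, 836), (1, 1076, 1080), (0, 838, 840), (0, 1084, 842), (0, 844, 846), (0, 1088, 848), (1, 1086, 1090), (0, 1082, 1092), (0,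 850, 852), (0, 1096, 854), (0, 856, 858), (0, 1100, 860), (1, 1098, 1102), (0, 1094, 1104), (0, 862, 864), (0, 1108, 866), (0, 868, 870), (0, 1112, 872), (1, 1110, 1114), (0, 1106, 1116), (0, 1118, 832), (0, 1120, 850), (0, 1122, 874), (0, 880, 882), (0, 1126, 884), (0, 886, 888), (0, 1130, 890), (1, 1128, 1132), (0, 1134, 892), (0, 894, 896), (0, 1138, 898), (0, 900, 902), (0, 1142, 904), (1, 1140, 1144), (0, 1136, 1146), (0, 906, 908), (0, 1150, 910), (0, 912, 914), (0, 1154, 916), (1, 1152, 1156), (0, 1158, 918), (0, 920, 922), (0, 1162, 924), (0, 926, 928), (0, 1166, 930), (1, 1164, 1168), (0, 1160, 1170), (0, 932, 934), (0, 1174, 664), (0, 936, 938), (0, 1178, 940), (1, 1176, 1180), (0, 1182, 942), (0, 1184, 1146), (0, 944, 946), (0, 1188, 662), (0, 948, 950), (0, 1192, 660), (1, 1190, 1194), (0, 1196, 952), (0, 1198, 1170), (0, 954, 956), (0, 1202, 958), (0, 960, 962), (0, 1206, 964), (1, 1204, 1208), (0, 966,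 968), (0, 1212, 970), (0, 972, 974), (0, 1216, 976), (1, 1214, 1218), (0, 1210, 1220), (0, 978, 980), (0, 1224, 982), (0, 984, 986), (0, 1228, 988), (1, 1226, 1230), (0, 1222, 1232), (0, 420, 990), (0, 1236, 992), (0, 638, 994), (0, 1240, 214), (1, 1238, 1242), (0, 1234, 1244), (0, 1246, 960), (0, 1248, 978), (0, 1250, 996)]
    [4, 168, 162, 1020, 1044, 1058, 1072, 1124, 876, 878, 1148, 1172, 1186, 1200, 1252]
    d_x44t d_x44a 0 = true := by
  decide +kernel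

theorem e_x44_last : rup d_x44t 3755
    [15372419, 15376521, 15316027, 15364301, 15331341, 15368335, 15335449, 13942791, 11980800] 0 = true := by
  decide +kernel

theorem e_x44_la : d_x44a.length = 1711 := by
  decide +kernel

theorem e_x44_l1 : 1711 + d_x44p1.length = 2141 := by
  decide +kernel

theorem e_x44_l2 : 2141 + d_x44p2.length = 2739 := by
  decide +kernel

theorem e_x44_l3 : 2739 + d_x44p3.length = 3415 := by
  decide +kernel

theorem e_x44_l4 : 3415 + d_x44p4.length = 3755 := by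
  decide +kernel

end H30P
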