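import Pool.Agent.Lib.H40X.XF6T

/-! # H40X: part 2 of the derived clauses of the check `f_x44_k` -/

set_option autoImplicit false
set_option linter.unusedVariables false
set_option maxRecDepth 100000

namespace H30P

open H53P

theorem e_x44_2 : run d_x44t d_x44p2 2141 = true := by
  decide +kernel

end H30P
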