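import Pool.Agent.Lib.H40X.XF1
import Pool.Agent.Lib.H40X.XF2
import Pool.Agent.Lib.H40X.XF3
import Pool.Agent.Lib.H40X.XF4
import Pool.Agent.Lib.H40X.XF5
import Pool.Agent.Lib.H40X.XF6
import Pool.Agent.Lib.H40X.XF7

/-! # H30P: facts for Lemma X (plan B): the facts are in XF1, XF2, XF3, XF4, XF5, XF6, XF7 -/
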