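import Pool.Agent.Lib.H40X.L
import Pool.Agent.Lib.H40X.XF

/-!
# H40X, file X: Lemma X

An upper path `w` from `w 0` to `w p` and a lower path `w'` from `A` to `B` with the same corner and a common
inner vertex cannot both have an enclosing chord.
-/

set_option autoImplicit false
set_option linter.unusedSectionVars false
set_option linter.unusedVariables false

namespace H40X

open H53P H30P H10S Finset

variable {V : Type*} [DecidableEq V] {T : Table V} {w : ℕ → V} {p : ℕ} {A B : V}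

/-- local data of type (T2) at `v` -/
structure L2 (T : Table V) (P Q A B v g : V) : Prop where
  gP : g ≠ P
  gQ : g ≠ Q
  gA : g ≠ A
  gB : g ≠ B
  gv : g ≠ v
  e1 : (inn T P B Q A g ^^ T.alt Q P A g B) = true
  e2 : (inn T P B Q A v ^^ inn T P B Q g v) = true

/-- local data of type (T3) at `v` -/
structure L3 (T : Table V) (P Q A B v g : V) : Prop where
  gP : g ≠ P
  gQ : g ≠ Q
  gA : g ≠ A
  gB : g ≠ B
  gv : g ≠ v
  e1 : (inn T P B Q A g ^^ T.alt P Q B g A) = true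
  e2 : (inn T P B Q A v ^^ inn T P g Q A v) = true

/-- the side of `y`, type (T4) -/
def s4 (T : Table V) (P Q A B g1 g2 y : V) : Bool :=
  ((((((inn T P B Q A y ^^ inn T P B g2 g1 y) ^^ inn T Q A g2 g1 y) ^^ inn T P B g2 g1 A) ^^ T.X y A P Q) ^^
    T.X y A Q g2) ^^ T.X y A P g2)

/-- local data of type (T4) at `v` -/
structure L4 (T : Table V) (P Q A B v g1 g2 : V) : Prop where
  gP : g1 ≠ P
  gQ : g1 ≠ Q
  gA : g1 ≠ A
  gB : g1 ≠ B
  hP : g2 ≠ P
  hQ : g2 ≠ Q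
  hA : g2 ≠ A
  hB : g2 ≠ B
  gg : g1 ≠ g2
  hv : g2 ≠ v
  e1 : T.X P B g1 g2 = true
  e2 : T.X Q A g1 g2 = true
  e3 : ((inn T g1 g2 B P Q ^^ T.X g1 B Q P) ^^ inn T P B Q A g1) = true
  e4 : ((inn T g2 g1 B P Q ^^ T.X g2 B Q P) ^^ inn T P B Q A g2) = true
  e5 : ((inn T g1 g2 A Q P ^^ T.X g1 A Q P) ^^ inn T P B Q A g1) = true
  e6 : ((inn T g2 g1 A Q P ^^ T.X g2 A Q P) ^^ inn T P B Q A g2) = true
  e7 : s4 T P Q A B g1 g2 v = true

/-- a constant function -/
theorem seg {f : ℕ → Bool} {a b : ℕ} (hs : ∀ k, a ≤ k → k < b → f k = f (k + 1)) {i j : ℕ} (ai : a ≤ i)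
    (ib : i ≤ b) (aj : a ≤ j) (jb : j ≤ b) : f i = f j := by
  have key : ∀ j, a ≤ j → j ≤ b → f j = f a := by
    intro j h1
    induction j, h1 using Nat.le_induction with
    | base => exact fun _ => rfl
    | succ j hj ih =>
      intro h2
      rw [← hs j hj (by omega)]
      exact ih (by omega)
  rw [key i ai ib, key j aj jb]

theorem room_nd (h : Room T w p A B) : w 0 ≠ w p ∧ w 0 ≠ A ∧ w 0 ≠ B ∧ w p ≠ A ∧ w p ≠ B ∧ A ≠ B := by
  obtain ⟨e1, e2, e3, e4, e5, e6⟩ := T.ne _ _ _ _ h.crs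
  exact ⟨e3, e4, e1, e2, e5.symm, e6.symm⟩

theorem b_of {a b : Bool} (h : z2 a + z2 b = 1) : (a ^^ b) = true := by
  apply z2_inj
  rw [z2_xor, h]
  rfl

theorem b_of0 {a b : Bool} (h : z2 a + z2 b = 0) : (a ^^ b) = false := by
  apply z2_inj
  rw [z2_xor, h]
  rfl

theorem b_of3 {a b c : Bool} (h : z2 a + z2 b + z2 c = 1) : ((a ^^ b) ^^ c) = true := by
  apply z2_inj
  rw [z2_xor, z2_xor, h]
  rfl

/-- (T1) -/
theorem loc1 (h : Room T w p A B) (m : Mis T w p (w 0) (w p)) (h1 : inn T (w 0) B (w p) A (w 1) = true)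
    {c : ℕ} (c0 : 0 < c) (cp : c < p) : inn T (w 0) B (w p) A (w c) = true := by
  rw [← h1]
  apply seg (f := fun k => inn T (w 0) B (w p) A (w k)) (a := 1) (b := p - 1) _ (by omega) (by omega) (by omega)
    (by omega)
  intro k k1 k2
  have e1 := sm_edge h.crs (h.ne_w (by omega) (by omega) (by omega)) (h.ne_w (by omega) (by omega) (by omega))
    (h.ne_w (by omega) (by omega) (by omega)) (h.ne_w (by omega) (by omega) (by omega))
    (h.ne_w (by omega) (by omega) (by omega)) (h.unc k (by omega)) (h.und k (by omega))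
  have e2 : x4 T (w 0) (w p) (w k) (w (k + 1)) = 0 := by
    unfold x4
    rw [m k (by omega)]
    rfl
  rw [e2] at e1
  apply z2_inj
  have e3 := two_z (z2 (inn T (w 0) B (w p) A (w (k + 1))))
  linear_combination -e1 - e3

/-- (T2) -/
theorem loc2 (h : Room T w p A B) {s : ℕ} (s0 : 0 < s) (sp : s + 2 ≤ p) (m : Mis T w p (w s) (w p))
    (h1 : sd T w p A B s (w p) = 1) (h2 : sd T w p A B p (w s) = 0) {c : ℕ} (c0 : 0 < c) (cp : c < p) :
    inn T (w 0) B (w p) A (w c) = true ∨ L2 T (w 0) (w p) A B (w c) (w s) := by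
  obtain ⟨n1, n2, n3, n4, n5, n6⟩ := room_nd h
  have g1 : w s ≠ w 0 := h.ne_w (by omega) (by omega) (by omega)
  have g2 : w s ≠ w p := h.ne_w (by omega) (by omega) (by omega)
  have g3 : w s ≠ A := h.offA s (by omega)
  have g4 : w s ≠ B := h.offB s (by omega)
  have q1 : w (p - 1) ≠ w 0 := h.ne_w (by omega) (by omega) (by omega)
  have q2 : w (p - 1) ≠ w p := h.ne_w (by omega) (by omega) (by omega)
  have q3 : w (p - 1) ≠ A := h.offA _ (by omega)
  have q4 : w (p - 1) ≠ B := h.offB _ (by omega)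
  have q5 : w (p - 1) ≠ w s := h.ne_w (by omega) (by omega) (by omega)
  have k1 : (inn T (w 0) B (w p) A (w s) ^^ T.alt (w p) (w 0) A (w s) B) = true := by
    apply b_of
    have := kap_p h s0 sp m
    rw [h1, h2, add_zero] at this
    exact this.symm
  have hX : T.X (w 0) B (w p) (w s) = true := by
    cases hh : T.X (w 0) B (w p) (w s) with
    | true => rfl
    | false =>
      exact (f_t2c (T := T) (P := w 0) (Q := w p) (A := A) (B := B) (g := w s)
        (by simp [n1, n2, n3, n4, n5, n6, g1.symm, g2.symm, g3.symm, g4.symm]) h.crs k1 hh).elim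
  have k2 : (inn T (w p) A B (w 0) (w (p - 1)) ^^ T.alt (w p) (w (p - 1)) A (w s) B) = false := by
    apply b_of0
    unfold sd at h2
    rw [if_neg (by omega), if_pos rfl, asum_p h] at h2
    exact h2
  have hu : T.X (w 0) B (w (p - 1)) (w p) = false := by
    have := h.unc (p - 1) (by omega)
    rw [show p - 1 + 1 = p by omega] at this
    exact this
  have base : (inn T (w 0) B (w p) A (w (p - 1)) ^^ inn T (w 0) B (w p) (w s) (w (p - 1))) = true := by
    cases hh : (inn T (w 0) B (w p) A (w (p - 1)) ^^ inn T (w 0) B (w p) (w s) (w (p - 1))) with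
    | true => rfl
    | false =>
      exact (f_t2b (T := T) (P := w 0) (Q := w p) (A := A) (B := B) (g := w s) (y := w (p - 1))
        (by simp [n1, n2, n3, n4, n5, n6, g1.symm, g2.symm, g3.symm, g4.symm, q1.symm, q2.symm, q3.symm,
          q4.symm, q5.symm]) h.crs k1 hu k2 hh).elim
  have fin : (inn T (w 0) B (w p) A (w c) ^^ inn T (w 0) B (w p) (w s) (w c)) = true := by
    rw [← base]
    apply seg (f := fun k => (inn T (w 0) B (w p) A (w k) ^^ inn T (w 0) B (w p) (w s) (w k))) (a := 1)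
      (b := p - 1) _ (by omega) (by omega) (by omega) (by omega)
    intro k k1 k2
    have e1 := sm_edge h.crs (h.ne_w (by omega) (by omega) (by omega)) (h.ne_w (by omega) (by omega) (by omega))
      (h.ne_w (by omega) (by omega) (by omega)) (h.ne_w (by omega) (by omega) (by omega))
      (h.ne_w (by omega) (by omega) (by omega)) (h.unc k (by omega)) (h.und k (by omega))
    have m1 : T.X (w p) (w s) (w k) (w (k + 1)) = false := by
      rw [T.xs1]
      exact m k (by omega)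
    have e2 := sm_edge hX (h.ne_w (by omega) (by omega) (by omega)) (h.ne_w (by omega) (by omega) (by omega))
      (h.ne_w (by omega) (by omega) (by omega)) (h.ne_w (by omega) (by omega) (by omega))
      (h.ne_w (by omega) (by omega) (by omega)) (h.unc k (by omega)) m1
    apply z2_inj
    show z2 (_ ^^ _) = z2 (_ ^^ _)
    rw [z2_xor, z2_xor]
    have e3 := two_z (z2 (inn T (w 0) B (w p) A (w (k + 1))))
    have e4 := two_z (z2 (inn T (w 0) B (w p) (w s) (w (k + 1))))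
    have e5 := two_z (x4 T (w 0) (w p) (w k) (w (k + 1)))
    linear_combination -e1 - e2 - e3 - e4 + e5
  by_cases hc : w s = w c
  · left
    rw [← hc, inn_v, Bool.xor_false] at fin
    rw [← hc]
    exact fin
  · right
    exact ⟨g1, g2, g3, g4, hc, k1, fin⟩

/-- (T3) -/
theorem loc3 (h : Room T w p A B) {t : ℕ} (t0 : 2 ≤ t) (tp : t < p) (m : Mis T w p (w 0) (w t))
    (h1 : sd T w p A B 0 (w t) = 0) (h2 : sd T w p A B t (w 0) = 1) {c : ℕ} (c0 : 0 < c) (cp : c < p) :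
    inn T (w 0) B (w p) A (w c) = true ∨ L3 T (w 0) (w p) A B (w c) (w t) := by
  obtain ⟨n1, n2, n3, n4, n5, n6⟩ := room_nd h
  have g1 : w t ≠ w 0 := h.ne_w (by omega) (by omega) (by omega)
  have g2 : w t ≠ w p := h.ne_w (by omega) (by omega) (by omega)
  have g3 : w t ≠ A := h.offA t (by omega)
  have g4 : w t ≠ B := h.offB t (by omega)
  have q1 : w 1 ≠ w 0 := h.ne_w (by omega) (by omega) (by omega)
  have q2 : w 1 ≠ w p := h.ne_w (by omega) (by omega) (by omega)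
  have q3 : w 1 ≠ A := h.offA _ (by omega)
  have q4 : w 1 ≠ B := h.offB _ (by omega)
  have q5 : w 1 ≠ w t := h.ne_w (by omega) (by omega) (by omega)
  have k1 : (inn T (w 0) B (w p) A (w t) ^^ T.alt (w 0) (w p) B (w t) A) = true := by
    apply b_of
    have := kap_0 h t0 tp m
    rw [h1, h2, zero_add] at this
    exact this.symm
  have hX : T.X (w p) A (w 0) (w t) = true := by
    cases hh : T.X (w p) A (w 0) (w t) with
    | true => rfl
    | false =>
      exact (f_t3c (T := T) (P := w 0) (Q := w p) (A := A) (B := B) (g := w t)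
        (by simp [n1, n2, n3, n4, n5, n6, g1.symm, g2.symm, g3.symm, g4.symm]) h.crs k1 hh).elim
  have k2 : (inn T (w 0) B A (w p) (w 1) ^^ T.alt (w 0) (w 1) B (w t) A) = false := by
    apply b_of0
    unfold sd at h1
    rw [if_pos rfl, asum_0 h] at h1
    exact h1
  have hu : T.X (w p) A (w 0) (w 1) = false := h.und 0 (by omega)
  have base : (inn T (w 0) B (w p) A (w 1) ^^ inn T (w 0) (w t) (w p) A (w 1)) = true := by
    cases hh : (inn T (w 0) B (w p) A (w 1) ^^ inn T (w 0) (w t) (w p) A (w 1)) with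
    | true => rfl
    | false =>
      exact (f_t3b (T := T) (P := w 0) (Q := w p) (A := A) (B := B) (g := w t) (y := w 1)
        (by simp [n1, n2, n3, n4, n5, n6, g1.symm, g2.symm, g3.symm, g4.symm, q1.symm, q2.symm, q3.symm,
          q4.symm, q5.symm]) h.crs k1 hu k2 hh).elim
  have hX' : T.X (w 0) (w t) (w p) A = true := by
    rw [T.xs4]
    exact hX
  have fin : (inn T (w 0) B (w p) A (w c) ^^ inn T (w 0) (w t) (w p) A (w c)) = true := by
    rw [← base]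
    apply seg (f := fun k => (inn T (w 0) B (w p) A (w k) ^^ inn T (w 0) (w t) (w p) A (w k))) (a := 1)
      (b := p - 1) _ (by omega) (by omega) (by omega) (by omega)
    intro k k1 k2
    have e1 := sm_edge h.crs (h.ne_w (by omega) (by omega) (by omega)) (h.ne_w (by omega) (by omega) (by omega))
      (h.ne_w (by omega) (by omega) (by omega)) (h.ne_w (by omega) (by omega) (by omega))
      (h.ne_w (by omega) (by omega) (by omega)) (h.unc k (by omega)) (h.und k (by omega))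
    have e2 := sm_edge hX' (h.ne_w (by omega) (by omega) (by omega)) (h.ne_w (by omega) (by omega) (by omega))
      (h.ne_w (by omega) (by omega) (by omega)) (h.ne_w (by omega) (by omega) (by omega))
      (h.ne_w (by omega) (by omega) (by omega)) (m k (by omega)) (h.und k (by omega))
    apply z2_inj
    show z2 (_ ^^ _) = z2 (_ ^^ _)
    rw [z2_xor, z2_xor]
    have e3 := two_z (z2 (inn T (w 0) B (w p) A (w (k + 1))))
    have e4 := two_z (z2 (inn T (w 0) (w t) (w p) A (w (k + 1))))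
    have e5 := two_z (x4 T (w 0) (w p) (w k) (w (k + 1)))
    linear_combination -e1 - e2 - e3 - e4 + e5
  by_cases hc : w t = w c
  · left
    rw [← hc, inn_u, Bool.xor_false] at fin
    rw [← hc]
    exact fin
  · right
    exact ⟨g1, g2, g3, g4, hc, k1, fin⟩

/-- one step for (T4) -/
theorem s4_step (h : Room T w p A B) {s t : ℕ} (s0 : 0 < s) (sp : s < p) (t0 : 0 < t) (tp : t < p)
    (m : Mis T w p (w s) (w t)) (hc : T.X (w 0) B (w s) (w t) = true) (hd : T.X (w p) A (w s) (w t) = true)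
    {k : ℕ} (k0 : 0 < k) (k1 : k + 1 < p) (kt : k ≠ t) (kt' : k + 1 ≠ t) :
    s4 T (w 0) (w p) A B (w s) (w t) (w k) = s4 T (w 0) (w p) A B (w s) (w t) (w (k + 1)) := by
  have hc' : T.X (w 0) B (w t) (w s) = true := by rw [T.xs2]; exact hc
  have hd' : T.X (w p) A (w t) (w s) = true := by rw [T.xs2]; exact hd
  have m1 : T.X (w t) (w s) (w k) (w (k + 1)) = false := by
    rw [T.xs1]
    exact m k (by omega)
  have a1 : w k ≠ w (k + 1) := h.ne_w (by omega) (by omega) (by omega)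
  have a2 : w k ≠ w 0 := h.ne_w (by omega) (by omega) (by omega)
  have a3 : w k ≠ w p := h.ne_w (by omega) (by omega) (by omega)
  have a4 : w k ≠ w t := h.ne_w (by omega) (by omega) kt
  have b2 : w (k + 1) ≠ w 0 := h.ne_w (by omega) (by omega) (by omega)
  have b3 : w (k + 1) ≠ w p := h.ne_w (by omega) (by omega) (by omega)
  have b4 : w (k + 1) ≠ w t := h.ne_w (by omega) (by omega) kt'
  obtain ⟨n1, n2, n3, n4, n5, n6⟩ := room_nd h
  have e1 := sm_edge h.crs a1 a2 a3 b2 b3 (h.unc k (by omega)) (h.und k (by omega))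
  have e2 := sm_edge hc' a1 a2 a4 b2 b4 (h.unc k (by omega)) m1
  have e3 := sm_edge hd' a1 a3 a4 b3 b4 (h.und k (by omega)) m1
  have e4 := tt_tri T (x := w 0) (y := w p) (z := w t) (a := w k) (b := A) (c := w (k + 1)) n1
    (h.ne_w (by omega) (by omega) (by omega)) (h.ne_w (by omega) (by omega) (by omega)) a2 a3 a4 n2.symm
    n4.symm (h.offA t (by omega)).symm b2 b3 b4
  unfold tt at e4
  rw [x4_2 T (w 0) (w p) A, x4_2 T (w p) (w t) A, x4_2 T (w t) (w 0) A, x4_1 T (w t) (w 0) (w k) A,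
    x4_1 T (w t) (w 0) (w (k + 1)) A, x4_1 T (w t) (w 0) (w k) (w (k + 1)),
    x4_4 T (w 0) (w p) (w k) A, x4_4 T (w p) (w t) (w k) A, x4_4 T (w 0) (w t) (w k) A,
    x4_4 T (w 0) (w p) (w (k + 1)) A, x4_4 T (w p) (w t) (w (k + 1)) A, x4_4 T (w 0) (w t) (w (k + 1)) A] at e4
  apply z2_inj
  unfold s4
  simp only [z2_xor]
  change _ + x4 T (w k) A (w 0) (w p) + x4 T (w k) A (w p) (w t) + x4 T (w k) A (w 0) (w t) =
    _ + x4 T (w (k + 1)) A (w 0) (w p) + x4 T (w (k + 1)) A (w p) (w t) + x4 T (w (k + 1)) A (w 0) (w t)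
  have f1 := two_z (z2 (inn T (w 0) B (w p) A (w (k + 1))))
  have f2 := two_z (z2 (inn T (w 0) B (w t) (w s) (w (k + 1))))
  have f3 := two_z (z2 (inn T (w p) A (w t) (w s) (w (k + 1))))
  have f4 := two_z (x4 T (w (k + 1)) A (w 0) (w p) + x4 T (w (k + 1)) A (w p) (w t) +
    x4 T (w (k + 1)) A (w 0) (w t))
  have f5 := two_z (x4 T (w 0) (w p) (w k) (w (k + 1)) + x4 T (w p) (w t) (w k) (w (k + 1)) +
    x4 T (w 0) (w t) (w k) (w (k + 1)))
  linear_combination -e1 - e2 - e3 + e4 - f1 - f2 - f3 - f4 + f5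

/-- the local numbers of a chord of type (T4), with the roles of `s` and `t` -/
theorem s4_fin (h : Room T w p A B) {s t c : ℕ} (s0 : 0 < s) (sp : s < p) (t0 : 0 < t) (tp : t < p)
    (st : s + 2 ≤ t ∨ t + 2 ≤ s) (m : Mis T w p (w s) (w t)) (hc : T.X (w 0) B (w s) (w t) = true)
    (hd : T.X (w p) A (w s) (w t) = true)
    (e3 : ((inn T (w s) (w t) B (w 0) (w p) ^^ T.X (w s) B (w p) (w 0)) ^^ inn T (w 0) B (w p) A (w s)) = true)
    (e4 : ((inn T (w t) (w s) B (w 0) (w p) ^^ T.X (w t) B (w p) (w 0)) ^^ inn T (w 0) B (w p) A (w t)) = true)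
    (e5 : ((inn T (w s) (w t) A (w p) (w 0) ^^ T.X (w s) A (w p) (w 0)) ^^ inn T (w 0) B (w p) A (w s)) = true)
    (e6 : ((inn T (w t) (w s) A (w p) (w 0) ^^ T.X (w t) A (w p) (w 0)) ^^ inn T (w 0) B (w p) A (w t)) = true)
    (c0 : 0 < c) (cp : c < p) (hct : (s < t ∧ c < t) ∨ (t < s ∧ t < c)) :
    L4 T (w 0) (w p) A B (w c) (w s) (w t) := by
  obtain ⟨n1, n2, n3, n4, n5, n6⟩ := room_nd h
  have g1 : w s ≠ w 0 := h.ne_w (by omega) (by omega) (by omega)
  have g2 : w s ≠ w p := h.ne_w (by omega) (by omega) (by omega)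
  have g3 : w s ≠ A := h.offA s (by omega)
  have g4 : w s ≠ B := h.offB s (by omega)
  have q1 : w t ≠ w 0 := h.ne_w (by omega) (by omega) (by omega)
  have q2 : w t ≠ w p := h.ne_w (by omega) (by omega) (by omega)
  have q3 : w t ≠ A := h.offA _ (by omega)
  have q4 : w t ≠ B := h.offB _ (by omega)
  have gg : w s ≠ w t := h.ne_w (by omega) (by omega) (by omega)
  have base : s4 T (w 0) (w p) A B (w s) (w t) (w s) = true := by
    unfold s4
    rw [inn_v, inn_v, Bool.xor_false, Bool.xor_false]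
    cases hh : ((((inn T (w 0) B (w p) A (w s) ^^ inn T (w 0) B (w t) (w s) A) ^^ T.X (w s) A (w 0) (w p)) ^^
      T.X (w s) A (w p) (w t)) ^^ T.X (w s) A (w 0) (w t)) with
    | true => rfl
    | false =>
      exact (f_t4b (T := T) (P := w 0) (Q := w p) (A := A) (B := B) (g1 := w s) (g2 := w t)
        (by simp [n1, n2, n3, n4, n5, n6, g1.symm, g2.symm, g3.symm, g4.symm, q1.symm, q2.symm, q3.symm,
          q4.symm, gg]) h.crs hc hd e3 e4 e5 e6 hh).elim
  have fin : s4 T (w 0) (w p) A B (w s) (w t) (w c) = true := by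
    rw [← base]
    rcases hct with ⟨h1, h2⟩ | ⟨h1, h2⟩
    · apply seg (f := fun k => s4 T (w 0) (w p) A B (w s) (w t) (w k)) (a := 1) (b := t - 1) _ (by omega)
        (by omega) (by omega) (by omega)
      intro k k1 k2
      exact s4_step h s0 sp t0 tp m hc hd (by omega) (by omega) (by omega) (by omega)
    · apply seg (f := fun k => s4 T (w 0) (w p) A B (w s) (w t) (w k)) (a := t + 1) (b := p - 1) _ (by omega)
        (by omega) (by omega) (by omega)
      intro k k1 k2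
      exact s4_step h s0 sp t0 tp m hc hd (by omega) (by omega) (by omega) (by omega)
  exact ⟨g1, g2, g3, g4, q1, q2, q3, q4, gg, h.ne_w (by omega) (by omega) (by omega), hc, hd, e3, e4, e5, e6, fin⟩

/-- (T4) -/
theorem loc4 (h : Room T w p A B) {s t c : ℕ} (s0 : 0 < s) (st : s + 2 ≤ t) (tp : t < p)
    (m : Mis T w p (w s) (w t)) (h1 : sd T w p A B s (w t) = 1) (h2 : sd T w p A B t (w s) = 1)
    (hX : T.X (w 0) B (w s) (w t) = true ∨ T.X (w p) A (w s) (w t) = true) (c0 : 0 < c) (cp : c < p) :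
    L4 T (w 0) (w p) A B (w c) (w s) (w t) ∨ L4 T (w 0) (w p) A B (w c) (w t) (w s) := by
  obtain ⟨n1, n2, n3, n4, n5, n6⟩ := room_nd h
  have g1 : w s ≠ w 0 := h.ne_w (by omega) (by omega) (by omega)
  have g2 : w s ≠ w p := h.ne_w (by omega) (by omega) (by omega)
  have g3 : w s ≠ A := h.offA s (by omega)
  have g4 : w s ≠ B := h.offB s (by omega)
  have q1 : w t ≠ w 0 := h.ne_w (by omega) (by omega) (by omega)
  have q2 : w t ≠ w p := h.ne_w (by omega) (by omega) (by omega)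
  have q3 : w t ≠ A := h.offA _ (by omega)
  have q4 : w t ≠ B := h.offB _ (by omega)
  have gg : w s ≠ w t := h.ne_w (by omega) (by omega) (by omega)
  have m' : Mis T w p (w t) (w s) := fun k hk => by rw [T.xs1]; exact m k hk
  unfold sd at h1 h2
  rw [if_neg (by omega), if_neg (by omega)] at h1 h2
  have lc : T.X (w 0) B (w s) (w t) = true →
      (((inn T (w s) (w t) B (w 0) (w p) ^^ T.X (w s) B (w p) (w 0)) ^^ inn T (w 0) B (w p) A (w s)) = true ∧
       ((inn T (w t) (w s) B (w 0) (w p) ^^ T.X (w t) B (w p) (w 0)) ^^ inn T (w 0) B (w p) A (w t)) = true) := by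
    intro hc
    constructor
    · apply b_of3
      rw [loc_c h s0 (by omega) (by omega) (Or.inl st) m hc] at h1
      exact h1
    · apply b_of3
      rw [loc_c h (by omega) tp (by omega) (Or.inr st) m' (by rw [T.xs2]; exact hc)] at h2
      exact h2
  have ld : T.X (w p) A (w s) (w t) = true →
      (((inn T (w s) (w t) A (w p) (w 0) ^^ T.X (w s) A (w p) (w 0)) ^^ inn T (w 0) B (w p) A (w s)) = true ∧
       ((inn T (w t) (w s) A (w p) (w 0) ^^ T.X (w t) A (w p) (w 0)) ^^ inn T (w 0) B (w p) A (w t)) = true) := by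
    intro hd
    constructor
    · apply b_of3
      rw [loc_d h s0 (by omega) (by omega) (Or.inl st) m hd] at h1
      exact h1
    · apply b_of3
      rw [loc_d h (by omega) tp (by omega) (Or.inr st) m' (by rw [T.xs2]; exact hd)] at h2
      exact h2
  have both : T.X (w 0) B (w s) (w t) = true ∧ T.X (w p) A (w s) (w t) = true := by
    rcases hX with hc | hd
    · refine ⟨hc, ?_⟩
      obtain ⟨a1, a2⟩ := lc hc
      cases hh : T.X (w p) A (w s) (w t) with
      | true => rfl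
      | false =>
        exact (f_t4x (T := T) (P := w 0) (Q := w p) (A := A) (B := B) (g1 := w s) (g2 := w t)
          (by simp [n1, n2, n3, n4, n5, n6, g1.symm, g2.symm, g3.symm, g4.symm, q1.symm, q2.symm, q3.symm,
            q4.symm, gg]) h.crs hc a1 a2 hh).elim
    · refine ⟨?_, hd⟩
      obtain ⟨a1, a2⟩ := ld hd
      cases hh : T.X (w 0) B (w s) (w t) with
      | true => rfl
      | false =>
        exact (f_t4y (T := T) (P := w 0) (Q := w p) (A := A) (B := B) (g1 := w s) (g2 := w t)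
          (by simp [n1, n2, n3, n4, n5, n6, g1.symm, g2.symm, g3.symm, g4.symm, q1.symm, q2.symm, q3.symm,
            q4.symm, gg]) h.crs hd a1 a2 hh).elim
  obtain ⟨hc, hd⟩ := both
  obtain ⟨a1, a2⟩ := lc hc
  obtain ⟨b1, b2⟩ := ld hd
  by_cases hct : c < t
  · left
    exact s4_fin h s0 (by omega) (by omega) tp (Or.inl st) m hc hd a1 a2 b1 b2 c0 cp
      (Or.inl ⟨by omega, hct⟩)
  · right
    exact s4_fin h (by omega) tp s0 (by omega) (Or.inr st) m' (by rw [T.xs2]; exact hc)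
      (by rw [T.xs2]; exact hd) a2 a1 b2 b1 c0 cp (Or.inr ⟨by omega, by omega⟩)

/-- the local data of an enclosing chord -/
theorem enc_loc (h : Room T w p A B) {s t c : ℕ} (he : Enc T w p A B s t) (c0 : 0 < c) (cp : c < p) :
    inn T (w 0) B (w p) A (w c) = true ∨ (∃ i ≤ p, L2 T (w 0) (w p) A B (w c) (w i)) ∨
      (∃ i ≤ p, L3 T (w 0) (w p) A B (w c) (w i)) ∨
      (∃ i ≤ p, ∃ j ≤ p, L4 T (w 0) (w p) A B (w c) (w i) (w j)) := by
  obtain ⟨st, tp, m, h1 | h1 | h1 | h1⟩ := he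
  · obtain ⟨rfl, rfl, h1⟩ := h1
    exact Or.inl (loc1 h m h1 c0 cp)
  · obtain ⟨s0, rfl, h1, h2⟩ := h1
    rcases loc2 h s0 st m h1 h2 c0 cp with h3 | h3
    · exact Or.inl h3
    · exact Or.inr (Or.inl ⟨s, by omega, h3⟩)
  · obtain ⟨rfl, tp', h1, h2⟩ := h1
    rcases loc3 h (by omega) tp' m h1 h2 c0 cp with h3 | h3
    · exact Or.inl h3
    · exact Or.inr (Or.inr (Or.inl ⟨t, by omega, h3⟩))
  · obtain ⟨s0, tp', h1, h2, hX⟩ := h1
    rcases loc4 h s0 st tp' m h1 h2 hX c0 cp with h3 | h3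
    · exact Or.inr (Or.inr (Or.inr ⟨s, by omega, t, by omega, h3⟩))
    · exact Or.inr (Or.inr (Or.inr ⟨t, by omega, s, by omega, h3⟩))

theorem s4_self (T : Table V) (P Q A B g g2 : V) : s4 T P Q A B g g2 g =
    ((((inn T P B Q A g ^^ inn T P B g2 g A) ^^ T.X g A P Q) ^^ T.X g A Q g2) ^^ T.X g A P g2) := by
  unfold s4
  rw [inn_v, inn_v, Bool.xor_false, Bool.xor_false]

/-- five different vertices -/
structure Nd5 (P Q A B v : V) : Prop where
  pq : P ≠ Q
  pa : P ≠ A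
  pb : P ≠ B
  qa : Q ≠ A
  qb : Q ≠ B
  ab : A ≠ B
  pv : P ≠ v
  qv : Q ≠ v
  av : A ≠ v
  bv : B ≠ v

theorem Nd5.swap {P Q A B v : V} (n : Nd5 P Q A B v) : Nd5 A B P Q v :=
  ⟨n.ab, n.pa.symm, n.qa.symm, n.pb.symm, n.qb.symm, n.pq, n.av, n.bv, n.pv, n.qv⟩

section

variable {P Q v : V}

theorem x11 (hX : T.X P B Q A = true) (n : Nd5 P Q A B v) (hu : inn T P B Q A v = true) (hl : inn T A Q B P v = true) : False :=
  f_x11 (by simp [n.pq, n.pa, n.pb, n.qa, n.qb, n.ab, n.pv, n.qv, n.av, n.bv]) hX hu hl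

theorem x12 (hX : T.X P B Q A = true) (n : Nd5 P Q A B v) (hu : inn T P B Q A v = true)
    {k : V} (hl : L2 T A B P Q v k) : False :=
  f_x12 (by simp [n.pq, n.pa, n.pb, n.qa, n.qb, n.ab, n.pv, n.qv, n.av, n.bv, hl.gP.symm, hl.gQ.symm, hl.gA.symm, hl.gB.symm, hl.gv.symm])
    hX hu hl.e1 hl.e2

theorem x13 (hX : T.X P B Q A = true) (n : Nd5 P Q A B v) (hu : inn T P B Q A v = true)
    {k : V} (hl : L3 T A B P Q v k) : False :=
  f_x13 (by simp [n.pq, n.pa, n.pb, n.qa, n.qb, n.ab, n.pv, n.qv, n.av, n.bv, hl.gP.symm, hl.gQ.symm, hl.gA.symm, hl.gB.symm, hl.gv.symm])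
    hX hu hl.e1 hl.e2

theorem x22 (hX : T.X P B Q A = true) (n : Nd5 P Q A B v) {g : V} (hu : L2 T P Q A B v g)
    {k : V} (hl : L2 T A B P Q v k) (gk : g ≠ k) : False :=
  f_x22 (by simp [n.pq, n.pa, n.pb, n.qa, n.qb, n.ab, n.pv, n.qv, n.av, n.bv, hu.gP.symm, hu.gQ.symm, hu.gA.symm, hu.gB.symm, hu.gv.symm, hl.gP.symm, hl.gQ.symm, hl.gA.symm, hl.gB.symm, hl.gv.symm, gk])
    hX hu.e1 hu.e2 hl.e1 hl.e2

theorem x23 (hX : T.X P B Q A = true) (n : Nd5 P Q A B v) {g : V} (hu : L2 T P Q A B v g)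
    {k : V} (hl : L3 T A B P Q v k) (gk : g ≠ k) : False :=
  f_x23 (by simp [n.pq, n.pa, n.pb, n.qa, n.qb, n.ab, n.pv, n.qv, n.av, n.bv, hu.gP.symm, hu.gQ.symm, hu.gA.symm, hu.gB.symm, hu.gv.symm, hl.gP.symm, hl.gQ.symm, hl.gA.symm, hl.gB.symm, hl.gv.symm, gk])
    hX hu.e1 hu.e2 hl.e1 hl.e2

theorem x33 (hX : T.X P B Q A = true) (n : Nd5 P Q A B v) {g : V} (hu : L3 T P Q A B v g)
    {k : V} (hl : L3 T A B P Q v k) (gk : g ≠ k) : False :=
  f_x33 (by simp [n.pq, n.pa, n.pb, n.qa, n.qb, n.ab, n.pv, n.qv, n.av, n.bv, hu.gP.symm, hu.gQ.symm, hu.gA.symm, hu.gB.symm, hu.gv.symm, hl.gP.symm, hl.gQ.symm, hl.gA.symm, hl.gB.symm, hl.gv.symm, gk])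
    hX hu.e1 hu.e2 hl.e1 hl.e2

theorem x14 (hX : T.X P B Q A = true) (n : Nd5 P Q A B v) (hu : inn T P B Q A v = true)
    {k k2 : V} (hl : L4 T A B P Q v k k2) (hk : k ≠ v) : False :=
  f_x14 (by simp [n.pq, n.pa, n.pb, n.qa, n.qb, n.ab, n.pv, n.qv, n.av, n.bv, hl.gP.symm, hl.gQ.symm, hl.gA.symm, hl.gB.symm, hl.hP.symm, hl.hQ.symm, hl.hA.symm, hl.hB.symm, hl.gg, hl.hv.symm, hk.symm])
    hX hu hl.e1 hl.e2 hl.e3 hl.e4 hl.e5 hl.e6 hl.e7

theorem x14b (hX : T.X P B Q A = true) (n : Nd5 P Q A B v) (hu : inn T P B Q A v = true)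
    {k2 : V} (hl : L4 T A B P Q v v k2) : False :=
  f_x14b (by simp [n.pq, n.pa, n.pb, n.qa, n.qb, n.ab, n.pv, n.qv, n.av, n.bv, hl.hP.symm, hl.hQ.symm, hl.hA.symm, hl.hB.symm, hl.hv.symm])
    hX hu hl.e1 hl.e2 hl.e3 hl.e4 hl.e5 hl.e6 ((s4_self T A B P Q v k2).symm.trans hl.e7)

theorem x24 (hX : T.X P B Q A = true) (n : Nd5 P Q A B v) {g : V} (hu : L2 T P Q A B v g)
    {k k2 : V} (hl : L4 T A B P Q v k k2) (hk : k ≠ v) (gk : g ≠ k) (gk2 : g ≠ k2) : False :=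
  f_x24 (by simp [n.pq, n.pa, n.pb, n.qa, n.qb, n.ab, n.pv, n.qv, n.av, n.bv, hu.gP.symm, hu.gQ.symm, hu.gA.symm, hu.gB.symm, hu.gv.symm, hl.gP.symm, hl.gQ.symm, hl.gA.symm, hl.gB.symm, hl.hP.symm, hl.hQ.symm, hl.hA.symm, hl.hB.symm, hl.gg, hl.hv.symm, hk.symm, gk, gk2])
    hX hu.e1 hu.e2 hl.e1 hl.e2 hl.e3 hl.e4 hl.e5 hl.e6 hl.e7

theorem x24b (hX : T.X P B Q A = true) (n : Nd5 P Q A B v) {g : V} (hu : L2 T P Q A B v g)
    {k2 : V} (hl : L4 T A B P Q v v k2) (gk2 : g ≠ k2) : False :=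
  f_x24b (by simp [n.pq, n.pa, n.pb, n.qa, n.qb, n.ab, n.pv, n.qv, n.av, n.bv, hu.gP.symm, hu.gQ.symm, hu.gA.symm, hu.gB.symm, hu.gv.symm, hl.hP.symm, hl.hQ.symm, hl.hA.symm, hl.hB.symm, hl.hv.symm, gk2])
    hX hu.e1 hu.e2 hl.e1 hl.e2 hl.e3 hl.e4 hl.e5 hl.e6 ((s4_self T A B P Q v k2).symm.trans hl.e7)

theorem x34 (hX : T.X P B Q A = true) (n : Nd5 P Q A B v) {g : V} (hu : L3 T P Q A B v g)
    {k k2 : V} (hl : L4 T A B P Q v k k2) (hk : k ≠ v) (gk : g ≠ k) (gk2 : g ≠ k2) : False :=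
  f_x34 (by simp [n.pq, n.pa, n.pb, n.qa, n.qb, n.ab, n.pv, n.qv, n.av, n.bv, hu.gP.symm, hu.gQ.symm, hu.gA.symm, hu.gB.symm, hu.gv.symm, hl.gP.symm, hl.gQ.symm, hl.gA.symm, hl.gB.symm, hl.hP.symm, hl.hQ.symm, hl.hA.symm, hl.hB.symm, hl.gg, hl.hv.symm, hk.symm, gk, gk2])
    hX hu.e1 hu.e2 hl.e1 hl.e2 hl.e3 hl.e4 hl.e5 hl.e6 hl.e7

theorem x34b (hX : T.X P B Q A = true) (n : Nd5 P Q A B v) {g : V} (hu : L3 T P Q A B v g)
    {k2 : V} (hl : L4 T A B P Q v v k2) (gk2 : g ≠ k2) : False :=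
  f_x34b (by simp [n.pq, n.pa, n.pb, n.qa, n.qb, n.ab, n.pv, n.qv, n.av, n.bv, hu.gP.symm, hu.gQ.symm, hu.gA.symm, hu.gB.symm, hu.gv.symm, hl.hP.symm, hl.hQ.symm, hl.hA.symm, hl.hB.symm, hl.hv.symm, gk2])
    hX hu.e1 hu.e2 hl.e1 hl.e2 hl.e3 hl.e4 hl.e5 hl.e6 ((s4_self T A B P Q v k2).symm.trans hl.e7)

theorem x44 (hX : T.X P B Q A = true) (n : Nd5 P Q A B v) {g g2 : V} (hu : L4 T P Q A B v g g2)
    {k k2 : V} (hl : L4 T A B P Q v k k2) (hg : g ≠ v) (hk : k ≠ v) (a1 : g ≠ k) (a2 : g ≠ k2) (a3 : g2 ≠ k) (a4 : g2 ≠ k2) : False :=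
  f_x44 (by simp [n.pq, n.pa, n.pb, n.qa, n.qb, n.ab, n.pv, n.qv, n.av, n.bv, hu.gP.symm, hu.gQ.symm, hu.gA.symm, hu.gB.symm, hu.hP.symm, hu.hQ.symm, hu.hA.symm, hu.hB.symm, hu.gg, hu.hv.symm, hl.gP.symm, hl.gQ.symm, hl.gA.symm, hl.gB.symm, hl.hP.symm, hl.hQ.symm, hl.hA.symm, hl.hB.symm, hl.gg, hl.hv.symm, hg.symm, hk.symm, a1, a2, a3, a4])
    hX hu.e1 hu.e2 hu.e3 hu.e4 hu.e5 hu.e6 hu.e7 hl.e1 hl.e2 hl.e3 hl.e4 hl.e5 hl.e6 hl.e7

theorem x44a (hX : T.X P B Q A = true) (n : Nd5 P Q A B v) {g2 : V} (hu : L4 T P Q A B v v g2)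
    {k k2 : V} (hl : L4 T A B P Q v k k2) (hk : k ≠ v) (a3 : g2 ≠ k) (a4 : g2 ≠ k2) : False :=
  f_x44a (by simp [n.pq, n.pa, n.pb, n.qa, n.qb, n.ab, n.pv, n.qv, n.av, n.bv, hu.hP.symm, hu.hQ.symm, hu.hA.symm, hu.hB.symm, hu.hv.symm, hl.gP.symm, hl.gQ.symm, hl.gA.symm, hl.gB.symm, hl.hP.symm, hl.hQ.symm, hl.hA.symm, hl.hB.symm, hl.gg, hl.hv.symm, hk.symm, a3, a4])
    hX hu.e1 hu.e2 hu.e3 hu.e4 hu.e5 hu.e6 ((s4_self T P Q A B v g2).symm.trans hu.e7) hl.e1 hl.e2 hl.e3 hl.e4 hl.e5 hl.e6 hl.e7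

theorem x44c (hX : T.X P B Q A = true) (n : Nd5 P Q A B v) {g2 : V} (hu : L4 T P Q A B v v g2)
    {k2 : V} (hl : L4 T A B P Q v v k2) (a4 : g2 ≠ k2) : False :=
  f_x44c (by simp [n.pq, n.pa, n.pb, n.qa, n.qb, n.ab, n.pv, n.qv, n.av, n.bv, hu.hP.symm, hu.hQ.symm, hu.hA.symm, hu.hB.symm, hu.hv.symm, hl.hP.symm, hl.hQ.symm, hl.hA.symm, hl.hB.symm, hl.hv.symm, a4])
    hX hu.e1 hu.e2 hu.e3 hu.e4 hu.e5 hu.e6 ((s4_self T P Q A B v g2).symm.trans hu.e7)
    hl.e1 hl.e2 hl.e3 hl.e4 hl.e5 hl.e6 ((s4_self T A B P Q v k2).symm.trans hl.e7)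

end

/-- the local data at `v` -/
def Loc (T : Table V) (U : V → Prop) (P Q A B v : V) : ℕ → Prop
  | 0 => inn T P B Q A v = true
  | 1 => ∃ g, U g ∧ L2 T P Q A B v g
  | 2 => ∃ g, U g ∧ L3 T P Q A B v g
  | _ => ∃ g1 g2, U g1 ∧ U g2 ∧ L4 T P Q A B v g1 g2

theorem loc_le {P Q v : V} (hX : T.X P B Q A = true) (n : Nd5 P Q A B v) {U W : V → Prop}
    (hUW : ∀ x, U x → W x → x = v) {a b : ℕ} (ab : a ≤ b) (b4 : b ≤ 3) (hu : Loc T U P Q A B v a)
    (hl : Loc T W A B P Q v b) : False := by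
  have dj : ∀ {x y : V}, U x → W y → x ≠ v → x ≠ y := by
    intro x y ux wy xv e
    subst e
    exact xv (hUW x ux wy)
  interval_cases b
  · interval_cases a
    exact x11 hX n hu hl
  · obtain ⟨k, wk, hl⟩ := hl
    interval_cases a
    · exact x12 hX n hu hl
    · obtain ⟨g, ug, hu⟩ := hu
      exact x22 hX n hu hl (dj ug wk hu.gv)
  · obtain ⟨k, wk, hl⟩ := hl
    interval_cases a
    · exact x13 hX n hu hl
    · obtain ⟨g, ug, hu⟩ := hu
      exact x23 hX n hu hl (dj ug wk hu.gv)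
    · obtain ⟨g, ug, hu⟩ := hu
      exact x33 hX n hu hl (dj ug wk hu.gv)
  · obtain ⟨k, k2, wk, wk2, hl⟩ := hl
    interval_cases a
    · by_cases hk : k = v
      · subst hk
        exact x14b hX n hu hl
      · exact x14 hX n hu hl hk
    · obtain ⟨g, ug, hu⟩ := hu
      by_cases hk : k = v
      · subst hk
        exact x24b hX n hu hl (dj ug wk2 hu.gv)
      · exact x24 hX n hu hl hk (dj ug wk hu.gv) (dj ug wk2 hu.gv)
    · obtain ⟨g, ug, hu⟩ := hu
      by_cases hk : k = v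
      · subst hk
        exact x34b hX n hu hl (dj ug wk2 hu.gv)
      · exact x34 hX n hu hl hk (dj ug wk hu.gv) (dj ug wk2 hu.gv)
    · obtain ⟨g, g2, ug, ug2, hu⟩ := hu
      by_cases hk : k = v
      · by_cases hg : g = v
        · subst hk
          subst hg
          exact x44c hX n hu hl (dj ug2 wk2 hu.hv)
        · subst hk
          have hX' : T.X A Q B P = true := by
            rw [T.xs3, T.xs4]
            exact hX
          exact x44a hX' n.swap hl hu hg (dj ug wk2 hg).symm (dj ug2 wk2 hu.hv).symm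
      · by_cases hg : g = v
        · subst hg
          exact x44a hX n hu hl hk (dj ug2 wk hu.hv) (dj ug2 wk2 hu.hv)
        · exact x44 hX n hu hl hg hk (dj ug wk hg) (dj ug wk2 hg) (dj ug2 wk hu.hv) (dj ug2 wk2 hu.hv)

theorem loc_false {P Q v : V} (hX : T.X P B Q A = true) (n : Nd5 P Q A B v) {U W : V → Prop}
    (hUW : ∀ x, U x → W x → x = v) {a b : ℕ} (a4 : a ≤ 3) (b4 : b ≤ 3) (hu : Loc T U P Q A B v a)
    (hl : Loc T W A B P Q v b) : False := by
  rcases Nat.le_total a b with h | h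
  · exact loc_le hX n hUW h b4 hu hl
  · have hX' : T.X A Q B P = true := by
      rw [T.xs3, T.xs4]
      exact hX
    exact loc_le hX' n.swap (fun x h1 h2 => hUW x h2 h1) h a4 hl hu

/-- the local data of an enclosing chord -/
theorem enc_Loc (h : Room T w p A B) {s t c : ℕ} (he : Enc T w p A B s t) (c0 : 0 < c) (cp : c < p) :
    ∃ a ≤ 3, Loc T (fun x => ∃ i ≤ p, w i = x) (w 0) (w p) A B (w c) a := by
  rcases enc_loc h he c0 cp with h1 | ⟨i, hi, h1⟩ | ⟨i, hi, h1⟩ | ⟨i, hi, j, hj, h1⟩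
  · exact ⟨0, by omega, h1⟩
  · exact ⟨1, by omega, w i, ⟨i, hi, rfl⟩, h1⟩
  · exact ⟨2, by omega, w i, ⟨i, hi, rfl⟩, h1⟩
  · exact ⟨3, by omega, w i, w j, ⟨i, hi, rfl⟩, ⟨j, hj, rfl⟩, h1⟩

/-- **Lemma X** -/
theorem lemx {w' : ℕ → V} {p' : ℕ} (h : Room T w p A B) (h' : Room T w' p' (w 0) (w p)) (e0 : w' 0 = A)
    (e1 : w' p' = B) {c c' : ℕ} (c0 : 0 < c) (cp : c < p) (c0' : 0 < c') (cp' : c' < p') (hv : w c = w' c')
    (hd : ∀ i ≤ p, ∀ j ≤ p', w i = w' j → i = c) {s t s' t' : ℕ} (he : Enc T w p A B s t)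
    (he' : Enc T w' p' (w 0) (w p) s' t') : False := by
  obtain ⟨a, ha, h1⟩ := enc_Loc h he c0 cp
  obtain ⟨b, hb, h2⟩ := enc_Loc h' he' c0' cp'
  rw [e0, e1, ← hv] at h2
  obtain ⟨n1, n2, n3, n4, n5, n6⟩ := room_nd h
  refine loc_false h.crs ⟨n1, n2, n3, n4, n5, n6, h.ne_w (by omega) (by omega) (by omega),
    h.ne_w (by omega) (by omega) (by omega), (h.offA c (by omega)).symm, (h.offB c (by omega)).symm⟩ ?_ ha hb h1 h2
  rintro x ⟨i, hi, hx⟩ ⟨j, hj, hx'⟩
  rw [← hx, hd i hi j hj (hx.trans hx'.symm)]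

end H40X
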