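import Pool.Agent.Lib.H36L.NC

/-!
# H40X, file Defs: sides of the chords of a path, enclosing chords

`h : Room T w p A B`: path `w 0, .., w p`, `c = (w 0) B`, `d = (w p) A` cross at `o`.

* `sd T w p A B i z`: start side of the ray `w i → z`, `0 ≤ i ≤ p` (`1`: in the room);
* `Enc T w p A B s t`: the edge `(w s)(w t)` misses the path and encloses `A` and `B`:
  - (T1) `s = 0`, `t = p`, outside (`w 1` is in the cell `(w 0, o, w p)`);
  - (T2) `t = p`, it starts at `w s` in the room and arrives at `w p` from outside;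
  - (T3) `s = 0`, the mirror image;
  - (T4) inner vertices, both ends in the room, it crosses `c` or `d`.
-/

set_option autoImplicit false

namespace H40X

open H53P H30P H10S Finset

variable {V : Type*} [DecidableEq V]

/-- the start side of the ray `w i → z` -/
def sd (T : Table V) (w : ℕ → V) (p : ℕ) (A B : V) (i : ℕ) (z : V) : ZMod 2 :=
  if i = 0 then asum T w (w 0) A 0 p + al T (w 0) (w 1) B z A
  else if i = p then asum T w (w p) B 0 p + al T (w p) (w (p - 1)) A z B
  else rf T w p A B i z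

/-- the enclosing chords -/
def Enc (T : Table V) (w : ℕ → V) (p : ℕ) (A B : V) (s t : ℕ) : Prop :=
  s + 2 ≤ t ∧ t ≤ p ∧ Mis T w p (w s) (w t) ∧
    ((s = 0 ∧ t = p ∧ inn T (w 0) B (w p) A (w 1) = true) ∨
     (0 < s ∧ t = p ∧ sd T w p A B s (w p) = 1 ∧ sd T w p A B p (w s) = 0) ∨
     (s = 0 ∧ t < p ∧ sd T w p A B 0 (w t) = 0 ∧ sd T w p A B t (w 0) = 1) ∨
     (0 < s ∧ t < p ∧ sd T w p A B s (w t) = 1 ∧ sd T w p A B t (w s) = 1 ∧
       (T.X (w 0) B (w s) (w t) = true ∨ T.X (w p) A (w s) (w t) = true)))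

end H40X
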