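import Pool.Agent.Lib.H40X.Defs

/-!
# H40X, file L: the sides of the chords are local

`h : Room T w p A B`. A chord of the path which crosses `c = (w 0) B` or `d = (w p) A`: its start sides depend on
six vertices only. The sides at `w 0` and `w p`, and the two sides of a chord `(w s)(w p)`.
-/

set_option autoImplicit false
set_option linter.unusedSectionVars false
set_option linter.unusedVariables false

namespace H40X

open H53P H30P H10S Finset

variable {V : Type*} [DecidableEq V] {T : Table V} {w : ℕ → V} {p : ℕ} {A B : V}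

theorem tel (f : ℕ → ZMod 2) {a b : ℕ} (h : a ≤ b) :
    ∑ k ∈ Ico a b, (f k + f (k + 1)) = f a + f b := by
  induction b, h using Nat.le_induction with
  | base => rw [Ico_self, sum_empty, two_z]
  | succ b hb ih =>
    rw [sum_Ico_succ_top hb, ih]
    have := two_z (f b)
    linear_combination this

theorem xadj {a b c d : V} (h : a = c ∨ a = d ∨ b = c ∨ b = d) : T.X a b c d = false := by
  cases h1 : T.X a b c d with
  | false => rfl
  | true =>
    obtain ⟨_, _, h2, h3, h4, h5⟩ := T.ne _ _ _ _ h1
    rcases h with h | h | h | h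
    · exact absurd h h2
    · exact absurd h h3
    · exact absurd h h4
    · exact absurd h h5

/-- alternations add up in the first pair -/
theorem al_add' {u a b c y z : V} (uy : u ≠ y) (uz : u ≠ z) (yz : y ≠ z) (bu : b ≠ u) (b1 : b ≠ y) (b2 : b ≠ z)
    (cu : c ≠ u) (c1 : c ≠ y) (c2 : c ≠ z) (au : a ≠ u) (a1 : a ≠ y) (a2 : a ≠ z) :
    al T u a b y z + al T u a c y z = al T u b c y z := by
  have h := al_add (T := T) uy uz yz bu b1 b2 cu c1 c2 au a1 a2
  unfold al at h ⊢
  rw [T.as4 u a b, T.as4 u a c, T.as4 u b c, T.as2 u y z a b, T.as2 u y z a c]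
  exact h

/-- the start side with reference `A` -/
theorem rf_alt (h : Room T w p A B) {i : ℕ} (h1 : 0 < i) (h2 : i < p) {z : V} (z0 : z ≠ w i)
    (z1 : z ≠ w (i + 1)) (z3 : z ≠ w (i - 1)) :
    rf T w p A B i z = pc T (re w p) (w i) A + z2 (inn T (w 0) B (w p) A (w i)) +
      al T (w i) (w (i + 1)) (w (i - 1)) z A := by
  have e1 := pc_one' h.rclo (h.rnb h1 h2) (h.offA i (by omega)) (h.offB i (by omega)) (h.roff h.offA)
    (h.roff h.offB) h.rlpl (T := T)
  have e2 := h.rs_A
  unfold rs at e2
  rw [inn_v, z2_false, add_zero] at e2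
  rw [e2, add_zero] at e1
  have e3 := al_add (T := T) (u := w i) (a := w (i + 1)) (b := w (i - 1)) (y := z) (z := A) (w := B)
    (h.ne_w (by omega) (by omega) (by omega)) (h.ne_w (by omega) (by omega) (by omega))
    (h.ne_w (by omega) (by omega) (by omega)) z0 z1 z3 (h.offA _ (by omega)).symm
    (h.offA _ (by omega)).symm (h.offA _ (by omega)).symm (h.offB _ (by omega)).symm
    (h.offB _ (by omega)).symm (h.offB _ (by omega)).symm
  unfold rf rs
  have e4 := two_z (pc T (re w p) (w i) A)
  linear_combination e1 + e3 - e4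

/-- the telescoping sum at an inner vertex -/
theorem asum_tel (h : Room T w p A B) {i : ℕ} (h1 : 0 < i) (h2 : i < p) {u D E : V}
    (hX : T.X (w i) u D E = true) (hD : ∀ k ≤ p, w k ≠ D) (m1 : Mis T w p (w i) u)
    (m2 : ∀ k < p, T.X D E (w k) (w (k + 1)) = false) :
    asum T w (w i) D 0 p = (z2 (inn T (w i) u D E (w 0)) + z2 (inn T (w i) u D E (w (i - 1)))) +
      (z2 (inn T (w i) u D E (w (i + 1))) + z2 (inn T (w i) u D E (w p))) := by
  have e1 : ∀ a b : ℕ, a ≤ b → b ≤ p → (∀ k, a ≤ k → k < b → k ≠ i ∧ k + 1 ≠ i) →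
      asum T w (w i) D a b = z2 (inn T (w i) u D E (w a)) + z2 (inn T (w i) u D E (w b)) := by
    intro a b hab hb hk
    rw [← tel (fun k => z2 (inn T (w i) u D E (w k))) hab]
    unfold asum
    apply sum_congr rfl
    intro k hk1
    rw [mem_Ico] at hk1
    obtain ⟨k1, k2⟩ := hk k hk1.1 hk1.2
    exact sm_edge hX (h.ne_w (by omega) (by omega) (by omega)) (h.ne_w (by omega) (by omega) k1)
      (hD k (by omega)) (h.ne_w (by omega) (by omega) k2) (hD (k + 1) (by omega)) (m1 k (by omega))
      (m2 k (by omega))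
  have e2 : asum T w (w i) D (i - 1) (i + 1) = 0 := by
    apply asum_unc
    intro k k1 k2
    apply xadj
    rcases (by omega : k = i ∨ k + 1 = i) with h3 | h3
    · left
      rw [h3]
    · right; left
      rw [h3]
  rw [asum_split T w (w i) D (Nat.zero_le (i - 1)) (by omega : i - 1 ≤ p),
    asum_split T w (w i) D (by omega : i - 1 ≤ i + 1) (by omega : i + 1 ≤ p), e2,
    e1 0 (i - 1) (by omega) (by omega) (fun k k1 k2 => by omega),
    e1 (i + 1) p (by omega) (by omega) (fun k k1 k2 => by omega), zero_add]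

/-- the sides of a chord which crosses `c` are local -/
theorem loc_c (h : Room T w p A B) {i j : ℕ} (h1 : 0 < i) (h2 : i < p) (hj : j ≤ p) (ij : i + 2 ≤ j ∨ j + 2 ≤ i)
    (m : Mis T w p (w i) (w j)) (hX : T.X (w 0) B (w i) (w j) = true) :
    rf T w p A B i (w j) = z2 (inn T (w i) (w j) B (w 0) (w p)) + x4 T (w i) B (w p) (w 0) +
      z2 (inn T (w 0) B (w p) A (w i)) := by
  have hX1 : T.X (w i) (w j) B (w 0) = true := by
    rw [T.xs5]
    exact hX
  have hX2 : T.X B (w 0) (w i) (w j) = true := by
    rw [T.xs1]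
    exact hX
  have e1 := asum_tel h h1 h2 hX1 h.offB m (fun k hk => by rw [T.xs1]; exact h.unc k hk)
  rw [inn_v, z2_false, zero_add] at e1
  have u1 : T.X B (w 0) (w i) (w (i + 1)) = false := by
    rw [T.xs1]; exact h.unc i h2
  have u2 : T.X B (w 0) (w i) (w (i - 1)) = false := by
    have := h.unc (i - 1) (by omega)
    rw [show i - 1 + 1 = i by omega] at this
    rw [T.xs3]; exact this
  have e2 := sec hX2 u1 u2 (h.ne_w (by omega) (by omega) (by omega)) (h.ne_w (by omega) (by omega) (by omega))
    (h.offB _ (by omega)) (h.offB _ (by omega)) (h.ne_w (by omega) (by omega) (by omega))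
    (h.ne_w (by omega) (by omega) (by omega)) (h.ne_w (by omega) (by omega) (by omega))
  rw [inn_swap T (w i) (w j) B (w 0) (w (i + 1)), inn_swap T (w i) (w j) B (w 0) (w (i - 1))] at e2
  have e3 : al T (w i) (w (i + 1)) (w (i - 1)) (w j) B = al T (w i) (w (i + 1)) (w (i - 1)) B (w j) := by
    unfold al
    rw [T.as2]
  unfold rf rs
  rw [h.rpc, e1, e3, e2]
  have e4 := two_z (z2 (inn T (w i) (w j) B (w 0) (w (i - 1))))
  have e5 := two_z (z2 (inn T (w i) (w j) B (w 0) (w (i + 1))))
  linear_combination e4 + e5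

/-- the sides of a chord which crosses `d` are local -/
theorem loc_d (h : Room T w p A B) {i j : ℕ} (h1 : 0 < i) (h2 : i < p) (hj : j ≤ p) (ij : i + 2 ≤ j ∨ j + 2 ≤ i)
    (m : Mis T w p (w i) (w j)) (hX : T.X (w p) A (w i) (w j) = true) :
    rf T w p A B i (w j) = z2 (inn T (w i) (w j) A (w p) (w 0)) + x4 T (w i) A (w p) (w 0) +
      z2 (inn T (w 0) B (w p) A (w i)) := by
  have hX1 : T.X (w i) (w j) A (w p) = true := by
    rw [T.xs5]
    exact hX
  have hX2 : T.X A (w p) (w i) (w j) = true := by
    rw [T.xs1]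
    exact hX
  have e1 := asum_tel h h1 h2 hX1 h.offA m (fun k hk => by rw [T.xs1]; exact h.und k hk)
  rw [inn_v, z2_false, add_zero] at e1
  have u1 : T.X A (w p) (w i) (w (i + 1)) = false := by
    rw [T.xs1]; exact h.und i h2
  have u2 : T.X A (w p) (w i) (w (i - 1)) = false := by
    have := h.und (i - 1) (by omega)
    rw [show i - 1 + 1 = i by omega] at this
    rw [T.xs3]; exact this
  have e2 := sec hX2 u1 u2 (h.ne_w (by omega) (by omega) (by omega)) (h.ne_w (by omega) (by omega) (by omega))
    (h.offA _ (by omega)) (h.offA _ (by omega)) (h.ne_w (by omega) (by omega) (by omega))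
    (h.ne_w (by omega) (by omega) (by omega)) (h.ne_w (by omega) (by omega) (by omega))
  rw [inn_swap T (w i) (w j) A (w p) (w (i + 1)), inn_swap T (w i) (w j) A (w p) (w (i - 1))] at e2
  have e3 : al T (w i) (w (i + 1)) (w (i - 1)) (w j) A = al T (w i) (w (i + 1)) (w (i - 1)) A (w j) := by
    unfold al
    rw [T.as2]
  rw [rf_alt h h1 h2 (h.ne_w (by omega) (by omega) (by omega)) (h.ne_w (by omega) (by omega) (by omega))
    (h.ne_w (by omega) (by omega) (by omega)), h.rpc, e1, e3, e2]
  have e4 := two_z (z2 (inn T (w i) (w j) A (w p) (w (i - 1))))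
  have e5 := two_z (z2 (inn T (w i) (w j) A (w p) (w (i + 1))))
  linear_combination e4 + e5

/-- crossings of `(w p) B` with the path -/
theorem asum_p (h : Room T w p A B) : asum T w (w p) B 0 p = z2 (inn T (w p) A B (w 0) (w (p - 1))) := by
  have h2 := h.two
  have hX : T.X (w p) A B (w 0) = true := by
    rw [T.xs5]
    exact h.crs
  rw [asum_split T w (w p) B (Nat.zero_le (p - 1)) (by omega : p - 1 ≤ p)]
  have e1 : asum T w (w p) B (p - 1) p = 0 := by
    apply asum_unc
    intro k k1 k2
    apply xadj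
    right; left
    rw [show k + 1 = p by omega]
  have e2 : asum T w (w p) B 0 (p - 1) =
      z2 (inn T (w p) A B (w 0) (w 0)) + z2 (inn T (w p) A B (w 0) (w (p - 1))) := by
    rw [← tel (fun k => z2 (inn T (w p) A B (w 0) (w k))) (Nat.zero_le (p - 1))]
    unfold asum
    apply sum_congr rfl
    intro k hk1
    rw [mem_Ico] at hk1
    exact sm_edge hX (h.ne_w (by omega) (by omega) (by omega)) (h.ne_w (by omega) (by omega) (by omega))
      (h.offB k (by omega)) (h.ne_w (by omega) (by omega) (by omega)) (h.offB (k + 1) (by omega))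
      (h.und k (by omega)) (by rw [T.xs1]; exact h.unc k (by omega))
  rw [e1, e2, inn_v, z2_false, zero_add, add_zero]

/-- crossings of `(w 0) A` with the path -/
theorem asum_0 (h : Room T w p A B) : asum T w (w 0) A 0 p = z2 (inn T (w 0) B A (w p) (w 1)) := by
  have h2 := h.two
  have hX : T.X (w 0) B A (w p) = true := by
    rw [T.xs2]
    exact h.crs
  rw [asum_split T w (w 0) A (Nat.zero_le 1) (by omega : 1 ≤ p)]
  have e1 : asum T w (w 0) A 0 1 = 0 := by
    apply asum_unc
    intro k k1 k2
    apply xadj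
    left
    rw [show k = 0 by omega]
  have e2 : asum T w (w 0) A 1 p =
      z2 (inn T (w 0) B A (w p) (w 1)) + z2 (inn T (w 0) B A (w p) (w p)) := by
    rw [← tel (fun k => z2 (inn T (w 0) B A (w p) (w k))) (by omega : 1 ≤ p)]
    unfold asum
    apply sum_congr rfl
    intro k hk1
    rw [mem_Ico] at hk1
    exact sm_edge hX (h.ne_w (by omega) (by omega) (by omega)) (h.ne_w (by omega) (by omega) (by omega))
      (h.offA k (by omega)) (h.ne_w (by omega) (by omega) (by omega)) (h.offA (k + 1) (by omega))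
      (h.unc k (by omega)) (by rw [T.xs1]; exact h.und k (by omega))
  rw [e1, e2, inn_v, z2_false, zero_add, add_zero]

/-- the neighbours of `w p` on the closed curve -/
theorem nb_p (h : Room T w p A B) : Nb (re w p) (w p) (w (p - 1)) (w 0) := by
  have h2 := h.two
  have h3 := h.rper.nb p
  rw [re_eq]
  rw [wc_top, wc_of le_rfl, show p + (p + 1) - 1 = (p - 1) + (p + 1) by omega, h.rper.per,
    wc_of (by omega)] at h3
  exact ⟨h3.ne.symm, h3.m2, h3.m1, fun b hb => (h3.only b hb).symm⟩

/-- the neighbours of `w 0` on the closed curve -/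
theorem nb_0 (h : Room T w p A B) : Nb (re w p) (w 0) (w 1) (w p) := by
  have h2 := h.two
  have h3 := h.rper.nb 0
  rw [re_eq]
  rw [wc_of (by omega), Nat.zero_add, wc_of (by omega), Nat.zero_add, show p + 1 - 1 = p by omega,
    wc_of le_rfl] at h3
  exact h3

/-- the two sides of the chord `(w s)(w p)` -/
theorem kap_p (h : Room T w p A B) {s : ℕ} (h1 : 0 < s) (h2 : s + 2 ≤ p) (m : Mis T w p (w s) (w p)) :
    sd T w p A B s (w p) + sd T w p A B p (w s) =
      z2 (inn T (w 0) B (w p) A (w s)) + al T (w p) (w 0) A (w s) B := by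
  have hs : s(w s, w p) ∉ re w p := by
    intro h4
    rcases (h.rnb h1 (by omega)).only _ h4 with h5 | h5
    · exact h.ne_w (by omega) (by omega) (by omega) h5
    · exact h.ne_w (by omega) (by omega) (by omega) h5
  have e1 := pc_two h.rclo (h.rnb h1 (by omega)) (nb_p h) (h.ne_w (by omega) (by omega) (by omega)) hs
    (h.roff h.offB) h.rlpl (T := T)
  have e2 : pc T (re w p) (w s) (w p) = 0 := by
    rw [h.rpc, asum_unc (fun k _ hk => m k hk), x4_adj3, add_zero]
  have e3 : pc T (re w p) B (w p) = asum T w (w p) B 0 p := by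
    rw [pc_symm, h.rpc, x4_adj1, add_zero]
  have e4 := al_add' (T := T) (u := w p) (a := w (p - 1)) (b := w 0) (c := A) (y := w s) (z := B)
    (h.ne_w (by omega) (by omega) (by omega)) (h.offB p le_rfl) (h.offB s (by omega))
    (h.ne_w (by omega) (by omega) (by omega)) (h.ne_w (by omega) (by omega) (by omega)) (h.offB 0 (by omega))
    (h.offA p le_rfl).symm (h.offA s (by omega)).symm (T.ne _ _ _ _ h.crs).2.2.2.2.2.symm
    (h.ne_w (by omega) (by omega) (by omega)) (h.ne_w (by omega) (by omega) (by omega)) (h.offB _ (by omega))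
  unfold sd
  rw [if_neg (by omega), if_neg (by omega), if_neg (by omega), if_pos rfl]
  unfold rf rs
  rw [e2, e3] at e1
  have e5 := two_z (al T (w s) (w (s + 1)) (w (s - 1)) (w p) B)
  linear_combination e1 + e4 + e5

/-- the two sides of the chord `(w 0)(w t)` -/
theorem kap_0 (h : Room T w p A B) {t : ℕ} (h1 : 2 ≤ t) (h2 : t < p) (m : Mis T w p (w 0) (w t)) :
    sd T w p A B 0 (w t) + sd T w p A B t (w 0) =
      z2 (inn T (w 0) B (w p) A (w t)) + al T (w 0) (w p) B (w t) A := by
  have hs : s(w t, w 0) ∉ re w p := by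
    intro h4
    rcases (h.rnb (by omega) (by omega)).only _ h4 with h5 | h5
    · exact h.ne_w (by omega) (by omega) (by omega) h5
    · exact h.ne_w (by omega) (by omega) (by omega) h5
  have e1 := pc_two h.rclo (h.rnb (by omega) h2) (nb_0 h) (h.ne_w (by omega) (by omega) (by omega)) hs
    (h.roff h.offA) h.rlpl (T := T)
  have e2 : pc T (re w p) (w t) (w 0) = 0 := by
    rw [pc_symm, h.rpc, asum_unc (fun k _ hk => m k hk), x4_adj2, add_zero]
  have e3 : pc T (re w p) A (w 0) = asum T w (w 0) A 0 p := by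
    rw [pc_symm, h.rpc, x4_adj2, add_zero]
  have e4 := al_add' (T := T) (u := w 0) (a := w 1) (b := w p) (c := B) (y := w t) (z := A)
    (h.ne_w (by omega) (by omega) (by omega)) (h.offA 0 (by omega)) (h.offA t (by omega))
    (h.ne_w (by omega) (by omega) (by omega)) (h.ne_w (by omega) (by omega) (by omega)) (h.offA p le_rfl)
    (h.offB 0 (by omega)).symm (h.offB t (by omega)).symm (T.ne _ _ _ _ h.crs).2.2.2.2.2
    (h.ne_w (by omega) (by omega) (by omega)) (h.ne_w (by omega) (by omega) (by omega)) (h.offA _ (by omega))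
  unfold sd
  rw [if_pos rfl, if_neg (by omega), if_neg (by omega), rf_alt h (by omega) h2
    (h.ne_w (by omega) (by omega) (by omega)) (h.ne_w (by omega) (by omega) (by omega))
    (h.ne_w (by omega) (by omega) (by omega))]
  rw [e2, e3] at e1
  have e5 := two_z (al T (w t) (w (t + 1)) (w (t - 1)) (w 0) A)
  linear_combination e1 + e4 + e5

end H40X
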