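import Pool.Agent.Lib.H40X.XG1
import Pool.Agent.Lib.H40X.XG2
import Pool.Agent.Lib.H40X.XG3

/-! # H30P: facts for Lemma X (plan B), common vertices: the facts are in XG1, XG2, XG3 -/
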