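import Pool.Agent.Lib.H40X.X
import Pool.Agent.Lib.H40X.XG

/-!
# H40X, file X2: Lemma X, the two paths may share further vertices
-/

set_option autoImplicit false
set_option linter.unusedSectionVars false
set_option linter.unusedVariables false

namespace H40X

open H53P H30P H10S Finset

variable {V : Type*} [DecidableEq V] {T : Table V} {w : ℕ → V} {p : ℕ} {A B : V}

section

variable {P Q v : V}

theorem x22g (hX : T.X P B Q A = true) (n : Nd5 P Q A B v) {g : V} (hu : L2 T P Q A B v g) (hl : L2 T A B P Q v g) : False :=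
  f_x22g (by simp [n.pq, n.pa, n.pb, n.qa, n.qb, n.ab, n.pv, n.qv, n.av, n.bv, hu.gP.symm, hu.gQ.symm, hu.gA.symm, hu.gB.symm, hu.gv.symm]) hX hu.e1 hu.e2 hl.e1 hl.e2

theorem x23g (hX : T.X P B Q A = true) (n : Nd5 P Q A B v) {g : V} (hu : L2 T P Q A B v g) (hl : L3 T A B P Q v g) : False :=
  f_x23g (by simp [n.pq, n.pa, n.pb, n.qa, n.qb, n.ab, n.pv, n.qv, n.av, n.bv, hu.gP.symm, hu.gQ.symm, hu.gA.symm, hu.gB.symm, hu.gv.symm]) hX hu.e1 hu.e2 hl.e1 hl.e2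

theorem x33g (hX : T.X P B Q A = true) (n : Nd5 P Q A B v) {g : V} (hu : L3 T P Q A B v g) (hl : L3 T A B P Q v g) : False :=
  f_x33g (by simp [n.pq, n.pa, n.pb, n.qa, n.qb, n.ab, n.pv, n.qv, n.av, n.bv, hu.gP.symm, hu.gQ.symm, hu.gA.symm, hu.gB.symm, hu.gv.symm]) hX hu.e1 hu.e2 hl.e1 hl.e2

theorem x24g (hX : T.X P B Q A = true) (n : Nd5 P Q A B v) {g k2 : V} (hu : L2 T P Q A B v g) (hl : L4 T A B P Q v g k2) : False :=
  f_x24g (by simp [n.pq, n.pa, n.pb, n.qa, n.qb, n.ab, n.pv, n.qv, n.av, n.bv, hu.gP.symm, hu.gQ.symm, hu.gA.symm, hu.gB.symm, hu.gv.symm, hl.hP.symm, hl.hQ.symm, hl.hA.symm, hl.hB.symm, hl.gg, hl.hv.symm])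
    hX hu.e1 hu.e2 hl.e1 hl.e2 hl.e3 hl.e4 hl.e5 hl.e6 hl.e7

theorem x24h (hX : T.X P B Q A = true) (n : Nd5 P Q A B v) {g k : V} (hu : L2 T P Q A B v g) (hl : L4 T A B P Q v k g) (hk : k ≠ v) : False :=
  f_x24h (by simp [n.pq, n.pa, n.pb, n.qa, n.qb, n.ab, n.pv, n.qv, n.av, n.bv, hu.gP.symm, hu.gQ.symm, hu.gA.symm, hu.gB.symm, hu.gv.symm, hl.gP.symm, hl.gQ.symm, hl.gA.symm, hl.gB.symm, hl.gg.symm, hk.symm])
    hX hu.e1 hu.e2 hl.e1 hl.e2 hl.e3 hl.e4 hl.e5 hl.e6 hl.e7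

theorem x24i (hX : T.X P B Q A = true) (n : Nd5 P Q A B v) {g : V} (hu : L2 T P Q A B v g) (hl : L4 T A B P Q v v g) : False :=
  f_x24i (by simp [n.pq, n.pa, n.pb, n.qa, n.qb, n.ab, n.pv, n.qv, n.av, n.bv, hu.gP.symm, hu.gQ.symm, hu.gA.symm, hu.gB.symm, hu.gv.symm])
    hX hu.e1 hu.e2 hl.e1 hl.e2 hl.e3 hl.e4 hl.e5 hl.e6
    ((s4_self T A B P Q v g).symm.trans hl.e7)

theorem x34g (hX : T.X P B Q A = true) (n : Nd5 P Q A B v) {g k2 : V} (hu : L3 T P Q A B v g) (hl : L4 T A B P Q v g k2) : False :=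
  f_x34g (by simp [n.pq, n.pa, n.pb, n.qa, n.qb, n.ab, n.pv, n.qv, n.av, n.bv, hu.gP.symm, hu.gQ.symm, hu.gA.symm, hu.gB.symm, hu.gv.symm, hl.hP.symm, hl.hQ.symm, hl.hA.symm, hl.hB.symm, hl.gg, hl.hv.symm])
    hX hu.e1 hu.e2 hl.e1 hl.e2 hl.e3 hl.e4 hl.e5 hl.e6 hl.e7

theorem x34h (hX : T.X P B Q A = true) (n : Nd5 P Q A B v) {g k : V} (hu : L3 T P Q A B v g) (hl : L4 T A B P Q v k g) (hk : k ≠ v) : False :=
  f_x34h (by simp [n.pq, n.pa, n.pb, n.qa, n.qb, n.ab, n.pv, n.qv, n.av, n.bv, hu.gP.symm, hu.gQ.symm, hu.gA.symm, hu.gB.symm, hu.gv.symm, hl.gP.symm, hl.gQ.symm, hl.gA.symm, hl.gB.symm, hl.gg.symm, hk.symm])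
    hX hu.e1 hu.e2 hl.e1 hl.e2 hl.e3 hl.e4 hl.e5 hl.e6 hl.e7

theorem x34i (hX : T.X P B Q A = true) (n : Nd5 P Q A B v) {g : V} (hu : L3 T P Q A B v g) (hl : L4 T A B P Q v v g) : False :=
  f_x34i (by simp [n.pq, n.pa, n.pb, n.qa, n.qb, n.ab, n.pv, n.qv, n.av, n.bv, hu.gP.symm, hu.gQ.symm, hu.gA.symm, hu.gB.symm, hu.gv.symm])
    hX hu.e1 hu.e2 hl.e1 hl.e2 hl.e3 hl.e4 hl.e5 hl.e6
    ((s4_self T A B P Q v g).symm.trans hl.e7)

theorem x44d (hX : T.X P B Q A = true) (n : Nd5 P Q A B v) {g g2 k2 : V} (hu : L4 T P Q A B v g g2) (hl : L4 T A B P Q v g k2)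
    (hg : g ≠ v) (a : g2 ≠ k2) : False :=
  f_x44d (by simp [n.pq, n.pa, n.pb, n.qa, n.qb, n.ab, n.pv, n.qv, n.av, n.bv, hu.gP.symm, hu.gQ.symm, hu.gA.symm, hu.gB.symm, hu.hP.symm, hu.hQ.symm, hu.hA.symm, hu.hB.symm, hu.gg, hu.hv.symm, hl.hP.symm, hl.hQ.symm, hl.hA.symm, hl.hB.symm, hl.hv.symm, hl.gg, hg.symm, a])
    hX hu.e1 hu.e2 hu.e3 hu.e4 hu.e5 hu.e6 hu.e7 hl.e1 hl.e2 hl.e3 hl.e4 hl.e5 hl.e6 hl.e7

theorem x44e (hX : T.X P B Q A = true) (n : Nd5 P Q A B v) {g g2 k : V} (hu : L4 T P Q A B v g g2) (hl : L4 T A B P Q v k g)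
    (hg : g ≠ v) (hk : k ≠ v) (a : g2 ≠ k) : False :=
  f_x44e (by simp [n.pq, n.pa, n.pb, n.qa, n.qb, n.ab, n.pv, n.qv, n.av, n.bv, hu.gP.symm, hu.gQ.symm, hu.gA.symm, hu.gB.symm, hu.hP.symm, hu.hQ.symm, hu.hA.symm, hu.hB.symm, hu.gg, hu.hv.symm, hl.gP.symm, hl.gQ.symm, hl.gA.symm, hl.gB.symm, hl.gg.symm, hg.symm, hk.symm, a])
    hX hu.e1 hu.e2 hu.e3 hu.e4 hu.e5 hu.e6 hu.e7 hl.e1 hl.e2 hl.e3 hl.e4 hl.e5 hl.e6 hl.e7

theorem x44f (hX : T.X P B Q A = true) (n : Nd5 P Q A B v) {g g2 k2 : V} (hu : L4 T P Q A B v g g2) (hl : L4 T A B P Q v g2 k2)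
    (hg : g ≠ v) (a : g ≠ k2) : False :=
  f_x44f (by simp [n.pq, n.pa, n.pb, n.qa, n.qb, n.ab, n.pv, n.qv, n.av, n.bv, hu.gP.symm, hu.gQ.symm, hu.gA.symm, hu.gB.symm, hu.hP.symm, hu.hQ.symm, hu.hA.symm, hu.hB.symm, hu.gg, hu.hv.symm, hl.hP.symm, hl.hQ.symm, hl.hA.symm, hl.hB.symm, hl.hv.symm, hl.gg, hg.symm, a])
    hX hu.e1 hu.e2 hu.e3 hu.e4 hu.e5 hu.e6 hu.e7 hl.e1 hl.e2 hl.e3 hl.e4 hl.e5 hl.e6 hl.e7

theorem x44g (hX : T.X P B Q A = true) (n : Nd5 P Q A B v) {g g2 k : V} (hu : L4 T P Q A B v g g2) (hl : L4 T A B P Q v k g2)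
    (hg : g ≠ v) (hk : k ≠ v) (a : g ≠ k) : False :=
  f_x44g (by simp [n.pq, n.pa, n.pb, n.qa, n.qb, n.ab, n.pv, n.qv, n.av, n.bv, hu.gP.symm, hu.gQ.symm, hu.gA.symm, hu.gB.symm, hu.hP.symm, hu.hQ.symm, hu.hA.symm, hu.hB.symm, hu.gg, hu.hv.symm, hl.gP.symm, hl.gQ.symm, hl.gA.symm, hl.gB.symm, hl.gg.symm, hg.symm, hk.symm, a])
    hX hu.e1 hu.e2 hu.e3 hu.e4 hu.e5 hu.e6 hu.e7 hl.e1 hl.e2 hl.e3 hl.e4 hl.e5 hl.e6 hl.e7

theorem x44h (hX : T.X P B Q A = true) (n : Nd5 P Q A B v) {g g2 : V} (hu : L4 T P Q A B v g g2) (hl : L4 T A B P Q v g g2) (hg : g ≠ v) : False :=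
  f_x44h (by simp [n.pq, n.pa, n.pb, n.qa, n.qb, n.ab, n.pv, n.qv, n.av, n.bv, hu.gP.symm, hu.gQ.symm, hu.gA.symm, hu.gB.symm, hu.hP.symm, hu.hQ.symm, hu.hA.symm, hu.hB.symm, hu.gg, hu.hv.symm, hg.symm])
    hX hu.e1 hu.e2 hu.e3 hu.e4 hu.e5 hu.e6 hu.e7 hl.e1 hl.e2 hl.e3 hl.e4 hl.e5 hl.e6 hl.e7

theorem x44i (hX : T.X P B Q A = true) (n : Nd5 P Q A B v) {g g2 : V} (hu : L4 T P Q A B v g g2) (hl : L4 T A B P Q v g2 g) (hg : g ≠ v) : False :=
  f_x44i (by simp [n.pq, n.pa, n.pb, n.qa, n.qb, n.ab, n.pv, n.qv, n.av, n.bv, hu.gP.symm, hu.gQ.symm, hu.gA.symm, hu.gB.symm, hu.hP.symm, hu.hQ.symm, hu.hA.symm, hu.hB.symm, hu.gg, hu.hv.symm, hg.symm])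
    hX hu.e1 hu.e2 hu.e3 hu.e4 hu.e5 hu.e6 hu.e7 hl.e1 hl.e2 hl.e3 hl.e4 hl.e5 hl.e6 hl.e7

theorem x44j (hX : T.X P B Q A = true) (n : Nd5 P Q A B v) {g2 k2 : V} (hu : L4 T P Q A B v v g2) (hl : L4 T A B P Q v g2 k2) : False :=
  f_x44j (by simp [n.pq, n.pa, n.pb, n.qa, n.qb, n.ab, n.pv, n.qv, n.av, n.bv, hu.hP.symm, hu.hQ.symm, hu.hA.symm, hu.hB.symm, hu.hv.symm, hl.hP.symm, hl.hQ.symm, hl.hA.symm, hl.hB.symm, hl.hv.symm, hl.gg])
    hX hu.e1 hu.e2 hu.e3 hu.e4 hu.e5 hu.e6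
    ((s4_self T P Q A B v g2).symm.trans hu.e7) hl.e1 hl.e2 hl.e3 hl.e4 hl.e5 hl.e6 hl.e7

theorem x44k (hX : T.X P B Q A = true) (n : Nd5 P Q A B v) {g2 k : V} (hu : L4 T P Q A B v v g2) (hl : L4 T A B P Q v k g2) (hk : k ≠ v) : False :=
  f_x44k (by simp [n.pq, n.pa, n.pb, n.qa, n.qb, n.ab, n.pv, n.qv, n.av, n.bv, hu.hP.symm, hu.hQ.symm, hu.hA.symm, hu.hB.symm, hu.hv.symm, hl.gP.symm, hl.gQ.symm, hl.gA.symm, hl.gB.symm, hl.gg.symm, hk.symm])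
    hX hu.e1 hu.e2 hu.e3 hu.e4 hu.e5 hu.e6
    ((s4_self T P Q A B v g2).symm.trans hu.e7) hl.e1 hl.e2 hl.e3 hl.e4 hl.e5 hl.e6 hl.e7

theorem x44l (hX : T.X P B Q A = true) (n : Nd5 P Q A B v) {g2 : V} (hu : L4 T P Q A B v v g2) (hl : L4 T A B P Q v v g2) : False :=
  f_x44l (by simp [n.pq, n.pa, n.pb, n.qa, n.qb, n.ab, n.pv, n.qv, n.av, n.bv, hu.hP.symm, hu.hQ.symm, hu.hA.symm, hu.hB.symm, hu.hv.symm])
    hX hu.e1 hu.e2 hu.e3 hu.e4 hu.e5 hu.e6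
    ((s4_self T P Q A B v g2).symm.trans hu.e7)
    hl.e1 hl.e2 hl.e3 hl.e4 hl.e5 hl.e6
    ((s4_self T A B P Q v g2).symm.trans hl.e7)

theorem y24 (hX : T.X P B Q A = true) (n : Nd5 P Q A B v) {g : V} (hu : L2 T P Q A B v g)
    {k k2 : V} (hl : L4 T A B P Q v k k2) : False := by
  by_cases hk : k = v
  · subst hk
    by_cases a : g = k2
    · subst a
      exact x24i hX n hu hl
    · exact x24b hX n hu hl a
  · by_cases a : g = k
    · subst a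
      exact x24g hX n hu hl
    · by_cases b : g = k2
      · subst b
        exact x24h hX n hu hl hk
      · exact x24 hX n hu hl hk a b

theorem y34 (hX : T.X P B Q A = true) (n : Nd5 P Q A B v) {g : V} (hu : L3 T P Q A B v g)
    {k k2 : V} (hl : L4 T A B P Q v k k2) : False := by
  by_cases hk : k = v
  · subst hk
    by_cases a : g = k2
    · subst a
      exact x34i hX n hu hl
    · exact x34b hX n hu hl a
  · by_cases a : g = k
    · subst a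
      exact x34g hX n hu hl
    · by_cases b : g = k2
      · subst b
        exact x34h hX n hu hl hk
      · exact x34 hX n hu hl hk a b

theorem y44a (hX : T.X P B Q A = true) (n : Nd5 P Q A B v) {g2 : V} (hu : L4 T P Q A B v v g2)
    {k k2 : V} (hl : L4 T A B P Q v k k2) (hk : k ≠ v) : False := by
  by_cases a : g2 = k
  · subst a
    exact x44j hX n hu hl
  · by_cases b : g2 = k2
    · subst b
      exact x44k hX n hu hl hk
    · exact x44a hX n hu hl hk a b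

theorem y44 (hX : T.X P B Q A = true) (n : Nd5 P Q A B v) {g g2 : V} (hu : L4 T P Q A B v g g2)
    {k k2 : V} (hl : L4 T A B P Q v k k2) : False := by
  by_cases hg : g = v
  · by_cases hk : k = v
    · subst hk
      subst hg
      by_cases a : g2 = k2
      · subst a
        exact x44l hX n hu hl
      · exact x44c hX n hu hl a
    · subst hg
      exact y44a hX n hu hl hk
  · by_cases hk : k = v
    · subst hk
      have hX' : T.X A Q B P = true := by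
        rw [T.xs3, T.xs4]
        exact hX
      exact y44a hX' n.swap hl hu hg
    · by_cases a1 : g = k
      · subst a1
        by_cases a4 : g2 = k2
        · subst a4
          exact x44h hX n hu hl hg
        · exact x44d hX n hu hl hg a4
      · by_cases a2 : g = k2
        · subst a2
          by_cases a3 : g2 = k
          · subst a3
            exact x44i hX n hu hl hg
          · exact x44e hX n hu hl hg hk a3
        · by_cases a3 : g2 = k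
          · subst a3
            exact x44f hX n hu hl hg a2
          · by_cases a4 : g2 = k2
            · subst a4
              exact x44g hX n hu hl hg hk a1
            · exact x44 hX n hu hl hg hk a1 a2 a3 a4

end

theorem loc_le' {P Q v : V} (hX : T.X P B Q A = true) (n : Nd5 P Q A B v) {U W : V → Prop}
    {a b : ℕ} (ab : a ≤ b) (b4 : b ≤ 3) (hu : Loc T U P Q A B v a)
    (hl : Loc T W A B P Q v b) : False := by
  interval_cases b
  · interval_cases a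
    exact x11 hX n hu hl
  · obtain ⟨k, wk, hl⟩ := hl
    interval_cases a
    · exact x12 hX n hu hl
    · obtain ⟨g, ug, hu⟩ := hu
      by_cases e : g = k
      · subst e
        exact x22g hX n hu hl
      · exact x22 hX n hu hl e
  · obtain ⟨k, wk, hl⟩ := hl
    interval_cases a
    · exact x13 hX n hu hl
    · obtain ⟨g, ug, hu⟩ := hu
      by_cases e : g = k
      · subst e
        exact x23g hX n hu hl
      · exact x23 hX n hu hl e
    · obtain ⟨g, ug, hu⟩ := hu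
      by_cases e : g = k
      · subst e
        exact x33g hX n hu hl
      · exact x33 hX n hu hl e
  · obtain ⟨k, k2, wk, wk2, hl⟩ := hl
    interval_cases a
    · by_cases hk : k = v
      · subst hk
        exact x14b hX n hu hl
      · exact x14 hX n hu hl hk
    · obtain ⟨g, ug, hu⟩ := hu
      exact y24 hX n hu hl
    · obtain ⟨g, ug, hu⟩ := hu
      exact y34 hX n hu hl
    · obtain ⟨g, g2, ug, ug2, hu⟩ := hu
      exact y44 hX n hu hl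

theorem loc_false' {P Q v : V} (hX : T.X P B Q A = true) (n : Nd5 P Q A B v) {U W : V → Prop}
    {a b : ℕ} (a4 : a ≤ 3) (b4 : b ≤ 3) (hu : Loc T U P Q A B v a)
    (hl : Loc T W A B P Q v b) : False := by
  rcases Nat.le_total a b with h | h
  · exact loc_le' hX n h b4 hu hl
  · have hX' : T.X A Q B P = true := by
      rw [T.xs3, T.xs4]
      exact hX
    exact loc_le' hX' n.swap h a4 hl hu

/-- **Lemma X**: one common inner vertex is enough -/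
theorem lemx' {w' : ℕ → V} {p' : ℕ} (h : Room T w p A B) (h' : Room T w' p' (w 0) (w p)) (e0 : w' 0 = A)
    (e1 : w' p' = B) {c c' : ℕ} (c0 : 0 < c) (cp : c < p) (c0' : 0 < c') (cp' : c' < p') (hv : w c = w' c')
    {s t s' t' : ℕ} (he : Enc T w p A B s t) (he' : Enc T w' p' (w 0) (w p) s' t') : False := by
  obtain ⟨a, ha, h1⟩ := enc_Loc h he c0 cp
  obtain ⟨b, hb, h2⟩ := enc_Loc h' he' c0' cp'
  rw [e0, e1, ← hv] at h2
  obtain ⟨n1, n2, n3, n4, n5, n6⟩ := room_nd h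
  exact loc_false' h.crs ⟨n1, n2, n3, n4, n5, n6, h.ne_w (by omega) (by omega) (by omega),
    h.ne_w (by omega) (by omega) (by omega), (h.offA c (by omega)).symm, (h.offB c (by omega)).symm⟩ ha hb h1 h2

end H40X
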