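import Pool.Agent.Lib.H30P.Snd

/-! # H40X: a check in several parts -/

set_option autoImplicit false

namespace H30P

theorem run_split {t : Tr} {p1 p2 : List (List ℕ)} {i j : ℕ} (h1 : run t p1 i = true) (hj : i + p1.length = j)
    (h2 : run t p2 j = true) : run t (p1 ++ p2) i = true := by
  induction p1 generalizing i with
  | nil =>
    rw [List.length_nil, Nat.add_zero] at hj
    rw [List.nil_append, hj]
    exact h2
  | cons a p1 ih =>
    rw [run_cons, Bool.and_eq_true] at h1
    rw [List.length_cons] at hj
    rw [List.cons_append, run_cons, h1.1, Bool.true_and]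
    exact ih h1.2 (by omega)

theorem len_split {p1 p2 : List (List ℕ)} {i j k : ℕ} (h1 : i + p1.length = j) (h2 : j + p2.length = k) :
    i + (p1 ++ p2).length = k := by
  rw [List.length_append]
  omega

theorem check_of {q : Tr} {N n : ℕ} {gs : List (ℕ × ℕ × ℕ)} {hl : List ℕ} {t : Tr} {As : List Ax}
    {pf : List (List ℕ)} {last : List ℕ} {a m : ℕ} (h0 : Nat.ble n 16 = true)
    (h1 : ckaxs q N n gs hl t As 0 = true) (hA : As.length = a) (h2 : run t pf a = true)
    (hm : a + pf.length = m) (h3 : rup t m last 0 = true) : check q N n gs hl t As pf last = true := by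
  subst hA
  subst hm
  unfold check
  rw [h0, h1, h2, h3]
  rfl

end H30P
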